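import Mathlib

set_option autoImplicit false

namespace Pool.Agent.H47.CubeDim

open Filter Topology Set MeasureTheory Metric
open scoped ENNReal NNReal

lemma exists_cover_of_lt {Y : Type*} [PseudoEMetricSpace Y] {δ : ℝ≥0} {B : Set Y} {M : ℝ≥0∞}
    (h : ((Metric.externalCoveringNumber δ B : ℕ∞) : ℝ≥0∞) < M) :
    ∃ (N : ℕ) (c : Fin N → Y), (∀ b ∈ B, ∃ i, edist b (c i) ≤ δ) ∧ (N : ℝ≥0∞) < M := by
  have hne : Metric.externalCoveringNumber δ B ≠ ⊤ := by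
    intro h2
    rw [h2] at h
    simp at h
  obtain ⟨k, hk⟩ := ENat.ne_top_iff_exists.1 hne
  have h3 : Metric.externalCoveringNumber δ B < (k + 1 : ℕ) := by
    rw [← hk]
    exact_mod_cast Nat.lt_succ_self k
  unfold Metric.externalCoveringNumber at h3
  rw [iInf_lt_iff] at h3
  obtain ⟨C, h3⟩ := h3
  rw [iInf_lt_iff] at h3
  obtain ⟨hC, hCk⟩ := h3
  have hfin : C.Finite := by
    rw [← Set.encard_lt_top_iff]
    exact lt_of_lt_of_le hCk le_top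
  have h4 : C.encard ≤ Metric.externalCoveringNumber δ B := by
    rw [← hk]
    have : C.encard < (k : ℕ∞) + 1 := by exact_mod_cast hCk
    exact Order.le_of_lt_add_one this
  have := hfin.fintype
  refine ⟨Fintype.card C, fun i => ((Fintype.equivFin C).symm i : Y), ?_, ?_⟩
  · intro b hb
    obtain ⟨c, hc, hbc⟩ := hC hb
    exact ⟨Fintype.equivFin C ⟨c, hc⟩, by simpa using hbc⟩
  · refine lt_of_le_of_lt ?_ h
    have h5 : C.encard = (Fintype.card C : ℕ∞) := by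
      rw [Set.encard_eq_coe_toFinset_card, Set.toFinset_card]
    rw [h5] at h4
    exact_mod_cast h4

/-- the product inequality `dim_H (A × B) ≤ dim_H A + u` when `N_δ(B) < δ^{-u}` for small `δ` -/
theorem dimH_prod_le {X Y : Type*} [EMetricSpace X] [EMetricSpace Y] {A : Set X} {B : Set Y} {s u : ℝ≥0}
    (hs : dimH A < s)
    (hu : ∀ᶠ δ in 𝓝[>] (0 : ℝ≥0), ((Metric.externalCoveringNumber δ B : ℕ∞) : ℝ≥0∞) < (δ : ℝ≥0∞) ^ (-(u : ℝ))) :
    dimH (A ×ˢ B) ≤ (s + u : ℝ≥0) := by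
  borelize X
  borelize (X × Y)
  have hs0 : 0 < s := by
    have : (0 : ℝ≥0∞) < s := lt_of_le_of_lt zero_le hs
    exact_mod_cast this
  have hsR : (0 : ℝ) < s := by exact_mod_cast hs0
  have hμ : μH[(s : ℝ)] A = 0 := hausdorffMeasure_of_dimH_lt hs
  -- covers of A
  have hcovA : ∀ r : ℝ≥0∞, 0 < r → ∃ t : ℕ → Set X, A ⊆ ⋃ n, t n ∧ (∀ n, ediam (t n) ≤ r) ∧
      ∑' n, ediam (t n) ^ (s : ℝ) ≤ 1 := by
    intro r hr
    rw [Measure.hausdorffMeasure_apply] at hμ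
    have h1 := (ENNReal.iSup_eq_zero.1 (ENNReal.iSup_eq_zero.1 hμ r)) hr
    have h2 : (⨅ (t : ℕ → Set X) (_ : A ⊆ ⋃ n, t n) (_ : ∀ n, ediam (t n) ≤ r),
          ∑' n, ⨆ _ : (t n).Nonempty, ediam (t n) ^ (s : ℝ)) < 1 := by
      rw [h1]; norm_num
    rw [iInf_lt_iff] at h2
    obtain ⟨t, h2⟩ := h2
    rw [iInf_lt_iff] at h2
    obtain ⟨ht1, h2⟩ := h2
    rw [iInf_lt_iff] at h2
    obtain ⟨ht2, h2⟩ := h2
    refine ⟨t, ht1, ht2, le_trans ?_ h2.le⟩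
    apply ENNReal.tsum_le_tsum
    intro n
    rcases (t n).eq_empty_or_nonempty with he | hne
    · rw [he, ediam_empty, ENNReal.zero_rpow_of_pos (by exact_mod_cast hs0)]
      exact zero_le
    · exact le_iSup (fun _ : (t n).Nonempty => ediam (t n) ^ (s : ℝ)) hne
  -- small scales
  obtain ⟨δ0, hδ0, hδ⟩ := (mem_nhdsGT_iff_exists_Ioo_subset).1 hu
  have hδ0' : 0 < δ0 := hδ0
  have key : ∀ r : ℝ≥0, 0 < r → r < δ0 → r ≤ 1 → ∃ (N : ℕ → ℕ) (T : (Σ n, Fin (N n)) → Set (X × Y)),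
      A ×ˢ B ⊆ (⋃ i, T i) ∧ (∀ i, ediam (T i) ≤ 2 * r) ∧
      ∑' i, ediam (T i) ^ (((s + u : ℝ≥0) : ℝ)) ≤ (2 : ℝ≥0∞) ^ (((s + u : ℝ≥0) : ℝ)) * 2 := by
    intro r hr hrδ hr1
    obtain ⟨t, htA, htd, htsum⟩ := hcovA r (by exact_mod_cast hr)
    set ε : ℕ → ℝ≥0 := fun n => r * ((1 / 2 : ℝ≥0) ^ (n + 1)) ^ (1 / (s : ℝ)) with hε
    have hεpos : ∀ n, 0 < ε n := fun n => by
      apply mul_pos hr
      apply NNReal.rpow_pos
      positivity
    have hεr : ∀ n, ε n ≤ r := fun n => by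
      have h1 : ((1 / 2 : ℝ≥0) ^ (n + 1)) ^ (1 / (s : ℝ)) ≤ 1 := by
        apply NNReal.rpow_le_one
        · apply pow_le_one₀ (by positivity)
          rw [div_le_one (by norm_num)]
          norm_num
        · positivity
      calc ε n ≤ r * 1 := by simp only [hε]; gcongr
        _ = r := mul_one _
    have hεs : ∀ n, ((ε n : ℝ≥0) : ℝ≥0∞) ^ (s : ℝ) ≤ (2⁻¹ : ℝ≥0∞) ^ (n + 1) := fun n => by
      have h1 : (ε n) ^ (s : ℝ) ≤ (1 / 2 : ℝ≥0) ^ (n + 1) := by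
        simp only [hε]
        rw [NNReal.mul_rpow, ← NNReal.rpow_mul, one_div_mul_cancel hsR.ne', NNReal.rpow_one]
        calc r ^ (s : ℝ) * (1 / 2 : ℝ≥0) ^ (n + 1) ≤ 1 * (1 / 2 : ℝ≥0) ^ (n + 1) := by
              gcongr
              exact NNReal.rpow_le_one hr1 hsR.le
          _ = _ := one_mul _
      rw [← ENNReal.coe_rpow_of_nonneg _ hsR.le]
      calc (((ε n) ^ (s : ℝ) : ℝ≥0) : ℝ≥0∞) ≤ (((1 / 2 : ℝ≥0) ^ (n + 1) : ℝ≥0) : ℝ≥0∞) := by
            exact_mod_cast h1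
        _ = _ := by
            push_cast
            rw [one_div]
    set ρ : ℕ → ℝ≥0 := fun n => max (ediam (t n)).toNNReal (ε n) with hρ
    have htfin : ∀ n, ediam (t n) ≠ ⊤ := fun n => ne_top_of_le_ne_top ENNReal.coe_ne_top (htd n)
    have hdρ : ∀ n, ediam (t n) ≤ ρ n := fun n => by
      have h1 : ediam (t n) = ((ediam (t n)).toNNReal : ℝ≥0∞) := (ENNReal.coe_toNNReal (htfin n)).symm
      conv_lhs => rw [h1]
      exact_mod_cast le_max_left _ _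
    have hρpos : ∀ n, 0 < ρ n := fun n => lt_of_lt_of_le (hεpos n) (le_max_right _ _)
    have hρr : ∀ n, ρ n ≤ r := fun n => by
      apply max_le _ (hεr n)
      have := htd n
      rw [← ENNReal.coe_toNNReal (htfin n)] at this
      exact_mod_cast this
    have hρsum : ∑' n, ((ρ n : ℝ≥0) : ℝ≥0∞) ^ (s : ℝ) ≤ 2 := by
      have h1 : ∀ n, ((ρ n : ℝ≥0) : ℝ≥0∞) ^ (s : ℝ) ≤ ediam (t n) ^ (s : ℝ) + (2⁻¹ : ℝ≥0∞) ^ (n + 1) := by
        intro n
        rcases le_total (ediam (t n)).toNNReal (ε n) with h | h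
        · have : ρ n = ε n := max_eq_right h
          rw [this]
          exact (hεs n).trans le_add_self
        · have : ρ n = (ediam (t n)).toNNReal := max_eq_left h
          rw [this, ENNReal.coe_toNNReal (htfin n)]
          exact le_self_add
      calc ∑' n, ((ρ n : ℝ≥0) : ℝ≥0∞) ^ (s : ℝ)
          ≤ ∑' n, (ediam (t n) ^ (s : ℝ) + (2⁻¹ : ℝ≥0∞) ^ (n + 1)) := ENNReal.tsum_le_tsum h1
        _ = ∑' n, ediam (t n) ^ (s : ℝ) + ∑' n : ℕ, (2⁻¹ : ℝ≥0∞) ^ (n + 1) := ENNReal.tsum_add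
        _ ≤ 1 + 1 := by
            gcongr
            have := ENNReal.tsum_geometric_add_one (2⁻¹ : ℝ≥0∞)
            rw [this, ENNReal.one_sub_inv_two, inv_inv, ENNReal.inv_mul_cancel (by norm_num) (by norm_num)]
        _ = 2 := by norm_num
    have hcov : ∀ n, ∃ (N : ℕ) (c : Fin N → Y), (∀ b ∈ B, ∃ i, edist b (c i) ≤ ρ n) ∧
        (N : ℝ≥0∞) < ((ρ n : ℝ≥0) : ℝ≥0∞) ^ (-(u : ℝ)) := fun n =>
      exists_cover_of_lt (hδ ⟨hρpos n, lt_of_le_of_lt (hρr n) hrδ⟩)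
    choose N c hc hN using hcov
    have hdiam : ∀ x : (Σ n, Fin (N n)), ediam ((t x.1) ×ˢ {y | edist y (c x.1 x.2) ≤ ρ x.1}) ≤ 2 * ρ x.1 := by
      intro x
      apply ediam_le
      rintro ⟨a, b⟩ ⟨ha, hb⟩ ⟨a', b'⟩ ⟨ha', hb'⟩
      rw [Prod.edist_eq]
      apply max_le
      · calc edist a a' ≤ ediam (t x.1) := edist_le_ediam_of_mem ha ha'
          _ ≤ ρ x.1 := hdρ _
          _ ≤ 2 * ρ x.1 := by
            rw [two_mul]; exact le_self_add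
      · calc edist b b' ≤ edist b (c x.1 x.2) + edist (c x.1 x.2) b' := edist_triangle _ _ _
          _ ≤ ρ x.1 + ρ x.1 := by
            rw [edist_comm (c x.1 x.2) b']
            exact add_le_add hb hb'
          _ = 2 * ρ x.1 := by rw [two_mul]
    refine ⟨N, fun x => (t x.1) ×ˢ {y | edist y (c x.1 x.2) ≤ ρ x.1}, ?_, ?_, ?_⟩
    · rintro ⟨a, b⟩ ⟨ha, hb⟩
      obtain ⟨n, hn⟩ := mem_iUnion.1 (htA ha)
      obtain ⟨i, hi⟩ := hc n b hb
      exact mem_iUnion.2 ⟨⟨n, i⟩, ⟨hn, hi⟩⟩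
    · intro x
      refine (hdiam x).trans ?_
      gcongr
      exact hρr _
    · have he : (0 : ℝ) ≤ ((s + u : ℝ≥0) : ℝ) := NNReal.coe_nonneg _
      calc ∑' x : (Σ n, Fin (N n)), ediam ((t x.1) ×ˢ {y | edist y (c x.1 x.2) ≤ ρ x.1}) ^ (((s + u : ℝ≥0) : ℝ))
          ≤ ∑' x : (Σ n, Fin (N n)), (2 * (ρ x.1 : ℝ≥0∞)) ^ (((s + u : ℝ≥0) : ℝ)) := by
            apply ENNReal.tsum_le_tsum
            intro x
            exact ENNReal.rpow_le_rpow (hdiam x) he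
        _ = ∑' n, ∑' _ : Fin (N n), (2 * (ρ n : ℝ≥0∞)) ^ (((s + u : ℝ≥0) : ℝ)) := by
            rw [ENNReal.tsum_sigma']
        _ ≤ ∑' n, (2 : ℝ≥0∞) ^ (((s + u : ℝ≥0) : ℝ)) * (ρ n : ℝ≥0∞) ^ (s : ℝ) := by
            apply ENNReal.tsum_le_tsum
            intro n
            have hρ0 : (ρ n : ℝ≥0∞) ≠ 0 := by exact_mod_cast (hρpos n).ne'
            rw [tsum_fintype, Finset.sum_const, Finset.card_univ, Fintype.card_fin, nsmul_eq_mul,
              ENNReal.mul_rpow_of_nonneg _ _ he]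
            calc (N n : ℝ≥0∞) * ((2 : ℝ≥0∞) ^ (((s + u : ℝ≥0) : ℝ)) * (ρ n : ℝ≥0∞) ^ (((s + u : ℝ≥0) : ℝ)))
                ≤ (ρ n : ℝ≥0∞) ^ (-(u : ℝ)) * ((2 : ℝ≥0∞) ^ (((s + u : ℝ≥0) : ℝ)) * (ρ n : ℝ≥0∞) ^ (((s + u : ℝ≥0) : ℝ))) := by
                  gcongr
                  exact (hN n).le
              _ = (2 : ℝ≥0∞) ^ (((s + u : ℝ≥0) : ℝ)) * ((ρ n : ℝ≥0∞) ^ (-(u : ℝ)) * (ρ n : ℝ≥0∞) ^ (((s + u : ℝ≥0) : ℝ))) := by
                  ring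
              _ = (2 : ℝ≥0∞) ^ (((s + u : ℝ≥0) : ℝ)) * (ρ n : ℝ≥0∞) ^ (s : ℝ) := by
                  rw [← ENNReal.rpow_add _ _ hρ0 ENNReal.coe_ne_top]
                  congr 2
                  push_cast; ring
        _ = (2 : ℝ≥0∞) ^ (((s + u : ℝ≥0) : ℝ)) * ∑' n, (ρ n : ℝ≥0∞) ^ (s : ℝ) := ENNReal.tsum_mul_left
        _ ≤ (2 : ℝ≥0∞) ^ (((s + u : ℝ≥0) : ℝ)) * 2 := by gcongr
  -- the sequence of scales
  set r : ℕ → ℝ≥0 := fun k => min (δ0 / 2) 1 / (k + 1) with hr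
  have hrpos : ∀ k, 0 < r k := fun k => by
    simp only [hr]
    have : 0 < min (δ0 / 2) 1 := lt_min (by positivity) (by norm_num)
    positivity
  have hrle : ∀ k, r k ≤ min (δ0 / 2) 1 := fun k => by
    simp only [hr]
    apply div_le_self (by positivity)
    simp
  have hrδ : ∀ k, r k < δ0 := fun k => lt_of_le_of_lt ((hrle k).trans (min_le_left _ _)) (half_lt_self hδ0')
  have hr1 : ∀ k, r k ≤ 1 := fun k => (hrle k).trans (min_le_right _ _)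
  have hrlim : Tendsto (fun k => 2 * (r k : ℝ≥0∞)) atTop (𝓝 0) := by
    have h1 : Tendsto r atTop (𝓝 0) := by
      have h2 : Tendsto (fun k : ℕ => (min (δ0 / 2) 1 : ℝ≥0) * (1 / ((k : ℝ≥0) + 1))) atTop (𝓝 (min (δ0 / 2) 1 * 0)) := by
        apply Tendsto.const_mul
        exact tendsto_one_div_add_atTop_nhds_zero_nat
      rw [mul_zero] at h2
      refine h2.congr fun k => ?_
      simp only [hr]
      rw [mul_one_div]
    have h3 : Tendsto (fun k => (r k : ℝ≥0∞)) atTop (𝓝 ((0 : ℝ≥0) : ℝ≥0∞)) := by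
      exact_mod_cast h1
    have h4 := ENNReal.Tendsto.const_mul (a := 2) h3 (Or.inr (by norm_num))
    simpa using h4
  choose N T hT1 hT2 hT3 using fun k => key (r k) (hrpos k) (hrδ k) (hr1 k)
  apply dimH_le_of_hausdorffMeasure_ne_top
  have hle := Measure.hausdorffMeasure_le_liminf_tsum (((s + u : ℝ≥0) : ℝ)) (A ×ˢ B) (l := atTop)
    (fun k => 2 * (r k : ℝ≥0∞)) hrlim T (Eventually.of_forall hT2) (Eventually.of_forall hT1)
  have hbd : liminf (fun k => ∑' i, ediam (T k i) ^ (((s + u : ℝ≥0) : ℝ))) atTop ≤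
      (2 : ℝ≥0∞) ^ (((s + u : ℝ≥0) : ℝ)) * 2 := by
    calc liminf (fun k => ∑' i, ediam (T k i) ^ (((s + u : ℝ≥0) : ℝ))) atTop
        ≤ liminf (fun _ : ℕ => (2 : ℝ≥0∞) ^ (((s + u : ℝ≥0) : ℝ)) * 2) atTop := by
          apply liminf_le_liminf (Eventually.of_forall hT3)
      _ = _ := liminf_const _
  apply ne_top_of_le_ne_top _ (hle.trans hbd)
  apply ENNReal.mul_ne_top _ (by norm_num)
  exact ENNReal.rpow_ne_top_of_nonneg (NNReal.coe_nonneg _) (by norm_num)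

end Pool.Agent.H47.CubeDim
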