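import Mathlib

set_option autoImplicit false

namespace Pool.Agent.H47.HR

open Module

/-- If the span of `X` has dimension more than `k`, some `k+1` vectors of `X` are sent by a linear map to a
family with nonzero determinant. -/
lemma exists_det_ne_zero {F : Type*} [AddCommGroup F] [Module ℂ F] [FiniteDimensional ℂ F]
    (X : Set F) (k : ℕ) (h : k < finrank ℂ (Submodule.span ℂ X)) :
    ∃ x : Fin (k + 1) → F, (∀ i, x i ∈ X) ∧ ∃ A : F →ₗ[ℂ] (Fin (k + 1) → ℂ),
      (Matrix.of fun i l => A (x i) l).det ≠ 0 := by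
  obtain ⟨f, hfX, -, hli⟩ := Submodule.exists_fun_fin_finrank_span_eq ℂ X
  have hinj : Function.Injective (Fin.castLE (Nat.succ_le_of_lt h)) := Fin.castLE_injective _
  set x : Fin (k + 1) → F := fun i => f (Fin.castLE (Nat.succ_le_of_lt h) i) with hx
  have hlx : LinearIndependent ℂ x := hli.comp _ hinj
  refine ⟨x, fun i => hfX _, ?_⟩
  -- left inverse
  let g : (Fin (k + 1) → ℂ) →ₗ[ℂ] F := Fintype.linearCombination ℂ x
  have hg : LinearMap.ker g = ⊥ := by
    rw [LinearMap.ker_eq_bot]
    exact hlx.fintypeLinearCombination_injective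
  obtain ⟨A, hA⟩ := LinearMap.exists_leftInverse_of_injective g hg
  refine ⟨A, ?_⟩
  have : (Matrix.of fun i l => A (x i) l) = (1 : Matrix (Fin (k + 1)) (Fin (k + 1)) ℂ) := by
    ext i l
    have h1 : g (Pi.single i 1) = x i := by
      simp [g, Fintype.linearCombination_apply, Pi.single_apply]
    have h2 : A (x i) = Pi.single i 1 := by
      rw [← h1]
      exact congrArg (fun φ => φ (Pi.single i 1)) hA
    simp [h2, Matrix.one_apply, Pi.single_apply, eq_comm]
  rw [this]
  simp

/-- Converse: if the span of `X` has dimension at most `k` the determinants of `k+1` vectors vanish. -/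
lemma det_eq_zero_of_finrank_le {F : Type*} [AddCommGroup F] [Module ℂ F] [FiniteDimensional ℂ F]
    (X : Set F) (k : ℕ) (h : finrank ℂ (Submodule.span ℂ X) ≤ k) {ι : Type*} [Fintype ι] [DecidableEq ι]
    (hι : k < Fintype.card ι)
    (x : ι → F) (hx : ∀ i, x i ∈ X) (A : F →ₗ[ℂ] (ι → ℂ)) :
      (Matrix.of fun i l => A (x i) l).det = 0 := by
  by_contra hdet
  have hli : LinearIndependent ℂ (fun i => (A (x i))) := by
    have := (Matrix.isUnit_iff_isUnit_det (Matrix.of fun i l => A (x i) l)).2 (isUnit_iff_ne_zero.2 hdet)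
    exact Matrix.linearIndependent_rows_of_isUnit this
  have hlx : LinearIndependent ℂ x := LinearIndependent.of_comp A hli
  have hlx' : LinearIndependent ℂ (fun i => (⟨x i, Submodule.subset_span (hx i)⟩ : Submodule.span ℂ X)) := by
    apply LinearIndependent.of_comp (Submodule.subtype _)
    exact hlx
  have := hlx'.fintype_card_le_finrank
  omega

end Pool.Agent.H47.HR
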