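import Pool.Agent.H47.HR1

set_option autoImplicit false

namespace Pool.Agent.H47.HR

open Module Filter Topology

/-- triangular numbers -/
def T : ℕ → ℕ
  | 0 => 0
  | k + 1 => (k + 1) + T k

lemma finrank_map_mkQ {F : Type*} [AddCommGroup F] [Module ℂ F] [FiniteDimensional ℂ F]
    (S W : Submodule ℂ F) :
    finrank ℂ (W.map S.mkQ) + finrank ℂ ((S.mkQ.domRestrict W).ker) = finrank ℂ W := by
  have := LinearMap.finrank_range_add_finrank_ker (S.mkQ.domRestrict W)
  rwa [LinearMap.range_domRestrict] at this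

lemma finrank_map_mkQ_lt {F : Type*} [AddCommGroup F] [Module ℂ F] [FiniteDimensional ℂ F]
    (S W : Submodule ℂ F) (x : F) (hxS : x ∈ S) (hxW : x ∈ W) (hx : x ≠ 0) :
    finrank ℂ (W.map S.mkQ) < finrank ℂ W := by
  have h1 := finrank_map_mkQ S W
  have h2 : 0 < finrank ℂ ((S.mkQ.domRestrict W).ker) := by
    rw [Module.finrank_pos_iff]
    refine ⟨⟨⟨⟨x, hxW⟩, ?_⟩, 0, ?_⟩⟩
    · simp [LinearMap.mem_ker, hxS]
    · intro h
      apply hx
      have := congrArg Subtype.val (congrArg Subtype.val h)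
      simpa using this
  omega

lemma finrank_le_add_map_mkQ {F : Type*} [AddCommGroup F] [Module ℂ F] [FiniteDimensional ℂ F]
    (S W : Submodule ℂ F) :
    finrank ℂ W ≤ finrank ℂ S + finrank ℂ (W.map S.mkQ) := by
  have h1 := finrank_map_mkQ S W
  have h2 : finrank ℂ ((S.mkQ.domRestrict W).ker) ≤ finrank ℂ S := by
    let f : ((S.mkQ.domRestrict W).ker) →ₗ[ℂ] S :=
      LinearMap.codRestrict S ((Submodule.subtype W).comp (Submodule.subtype _)) (by
        intro c
        have h3 : (S.mkQ.domRestrict W) c.1 = 0 := c.2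
        have h4 : S.mkQ (c.1 : F) = 0 := h3
        have h5 : (c.1 : F) ∈ LinearMap.ker S.mkQ := h4
        rw [Submodule.ker_mkQ] at h5
        exact h5)
    apply LinearMap.finrank_le_finrank_of_injective (f := f)
    intro a b hab
    have h3 := congrArg Subtype.val hab
    have h4 : ((a.1 : W) : F) = ((b.1 : W) : F) := h3
    exact Subtype.ext (Subtype.ext h4)
  omega

/-- the one-variable continuation lemma -/
lemma oneD {Ω : Set ℂ} (hΩc : Convex ℝ Ω) {f : ℂ → ℂ} (hf : AnalyticOnNhd ℂ f Ω)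
    {t0 : ℂ} (ht0 : t0 ∈ Ω) (h0 : ∃ᶠ t in 𝓝[≠] t0, f t = 0) {t : ℂ} (ht : t ∈ Ω) : f t = 0 :=
  hf.eqOn_zero_of_preconnected_of_frequently_eq_zero hΩc.isPreconnected ht0 h0 ht

lemma analytic_det {ι : Type*} [Fintype ι] [DecidableEq ι] {f : ℂ → ι → ι → ℂ} {t : ℂ}
    (hf : ∀ i l, AnalyticAt ℂ (fun t => f t i l) t) :
    AnalyticAt ℂ (fun t => (Matrix.of fun i l => f t i l).det) t := by
  simp only [Matrix.det_apply']
  apply Finset.analyticAt_fun_sum
  intro σ _
  apply AnalyticAt.fun_mul analyticAt_const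
  apply Finset.analyticAt_fun_prod
  intro i _
  exact hf _ _

universe u

theorem one_sided {n : ℕ} {B : Set (Fin n → ℂ)} (hB : IsOpen B) (hc : Convex ℝ B)
    (ℓ : ℕ → (Fin n → ℂ) →L[ℂ] ℂ) (hℓ : ∀ i j, i ≠ j → ∃ v, ℓ i v = 0 ∧ ℓ j v = 1) :
    ∀ (k : ℕ) (N : ℕ) (F : Type u) [AddCommGroup F] [Module ℂ F] [FiniteDimensional ℂ F]
    (v : (Fin n → ℂ) → F)
    (_ : ∀ φ : F →ₗ[ℂ] ℂ, AnalyticOnNhd ℂ (fun x => φ (v x)) B)
    (_ : ∀ n, N ≤ n → ∀ c : ℂ, finrank ℂ (Submodule.span ℂ (v '' {x | x ∈ B ∧ ℓ n x = c})) ≤ k),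
    finrank ℂ (Submodule.span ℂ (v '' B)) ≤ T k := by
  intro k
  induction k with
  | zero =>
    intro N F _ _ _ v hv h
    have hz : ∀ x ∈ B, v x = 0 := by
      intro x hx
      have h1 := h N le_rfl (ℓ N x)
      have h2 : Submodule.span ℂ (v '' {y | y ∈ B ∧ ℓ N y = ℓ N x}) = ⊥ := by
        apply Submodule.finrank_eq_zero.1
        omega
      have h3 : v x ∈ Submodule.span ℂ (v '' {y | y ∈ B ∧ ℓ N y = ℓ N x}) :=
        Submodule.subset_span ⟨x, ⟨hx, rfl⟩, rfl⟩
      rw [h2] at h3
      simpa using h3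
    have : Submodule.span ℂ (v '' B) = ⊥ := by
      rw [Submodule.span_eq_bot]
      rintro _ ⟨x, hx, rfl⟩
      exact hz x hx
    rw [this]
    simp
  | succ k ih =>
    intro N F _ _ _ v hv h
    by_cases hv0 : ∀ x ∈ B, v x = 0
    · have : Submodule.span ℂ (v '' B) = ⊥ := by
        rw [Submodule.span_eq_bot]
        rintro _ ⟨x, hx, rfl⟩
        exact hv0 x hx
      rw [this]
      simp
    push Not at hv0
    obtain ⟨u, huB, hu⟩ := hv0
    -- the subspace from the hyperplane through `u`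
    set S : Submodule ℂ F := Submodule.span ℂ (v '' {x | x ∈ B ∧ ℓ N x = ℓ N u}) with hS
    have hSk : finrank ℂ S ≤ k + 1 := h N le_rfl _
    -- claim (a)
    have claimA : ∀ n, N ≤ n → ∀ c : ℂ, (∃ u', u' ∈ B ∧ ℓ N u' = ℓ N u ∧ ℓ n u' = c ∧ v u' ≠ 0) →
        finrank ℂ (Submodule.span ℂ ((fun x => S.mkQ (v x)) '' {x | x ∈ B ∧ ℓ n x = c})) ≤ k := by
      rintro n hn c ⟨u', hu'B, h1, h2, h3⟩
      have e : Submodule.span ℂ ((fun x => S.mkQ (v x)) '' {x | x ∈ B ∧ ℓ n x = c})
          = (Submodule.span ℂ (v '' {x | x ∈ B ∧ ℓ n x = c})).map S.mkQ := by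
        rw [Submodule.map_span, ← Set.image_comp]
        rfl
      rw [e]
      have := finrank_map_mkQ_lt S (Submodule.span ℂ (v '' {x | x ∈ B ∧ ℓ n x = c})) (v u')
        (Submodule.subset_span ⟨u', ⟨hu'B, h1⟩, rfl⟩) (Submodule.subset_span ⟨u', ⟨hu'B, h2⟩, rfl⟩) h3
      have := h n hn c
      omega
    -- claim (b)
    have claimB : ∀ n, N + 1 ≤ n → ∀ c : ℂ,
        finrank ℂ (Submodule.span ℂ ((fun x => S.mkQ (v x)) '' {x | x ∈ B ∧ ℓ n x = c})) ≤ k := by
      intro n hn c
      by_contra hcon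
      push Not at hcon
      obtain ⟨x, hx, A, hdet⟩ := exists_det_ne_zero _ k hcon
      choose y hy hyx using hx
      -- deformation
      set Ω : Set ℂ := {t | ∀ i, (1 - t) • y i + t • u ∈ B} with hΩ
      have hΩc : Convex ℝ Ω := by
        intro s hs t ht a b ha hb hab i
        have h1 := hc (hs i) (ht i) ha hb hab
        convert h1 using 1
        have : (b : ℝ) = 1 - a := by linarith
        subst this
        ext j
        simp
        ring
      set D : ℂ → ℂ := fun t => (Matrix.of fun i l => A (S.mkQ (v ((1 - t) • y i + t • u))) l).det with hD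
      have hDan : AnalyticOnNhd ℂ D Ω := by
        intro t ht
        apply analytic_det
        intro i l
        have h1 := hv (((LinearMap.proj l).comp A).comp S.mkQ) _ (ht i)
        have h2 : AnalyticAt ℂ (fun t : ℂ => (1 - t) • y i + t • u) t := by fun_prop
        exact AnalyticAt.fun_comp (f := fun t : ℂ => (1 - t) • y i + t • u) h1 h2
      have h1Ω : (1 : ℂ) ∈ Ω := by
        intro i; simpa using huB
      have h0Ω : (0 : ℂ) ∈ Ω := by
        intro i; simpa using (hy i).1
      obtain ⟨w, hw1, hw2⟩ := hℓ N n (by omega)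
      -- a functional detecting v u
      obtain ⟨φ, hφ⟩ : ∃ φ : F →ₗ[ℂ] ℂ, φ (v u) ≠ 0 := by
        by_contra hcon
        push Not at hcon
        exact hu ((Module.forall_dual_apply_eq_zero_iff ℂ (v u)).1 hcon)
      have hev : ∀ᶠ t in 𝓝 (1 : ℂ), D t = 0 := by
        set g : ℂ → (Fin _ → ℂ) := fun t => u + ((1 - t) * (c - ℓ n u)) • w with hg
        have hgc : ContinuousAt g 1 := by fun_prop
        have hg1 : g 1 = u := by simp [hg]
        have e1 : ∀ᶠ t in 𝓝 (1 : ℂ), g t ∈ B := by
          apply hgc.eventually_mem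
          rw [hg1]
          exact hB.mem_nhds huB
        have e2 : ∀ᶠ t in 𝓝 (1 : ℂ), φ (v (g t)) ≠ 0 := by
          have hφc : ContinuousAt (fun x => φ (v x)) (g 1) := by
            rw [hg1]
            exact (hv φ u huB).continuousAt
          have : ContinuousAt (fun t => φ (v (g t))) 1 :=
            ContinuousAt.comp' (g := fun x => φ (v x)) (f := g) hφc hgc
          apply this.eventually_ne
          rw [hg1]
          exact hφ
        have e3 : ∀ᶠ t in 𝓝 (1 : ℂ), ∀ i, (1 - t) • y i + t • u ∈ B := by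
          rw [eventually_all]
          intro i
          have hcc : ContinuousAt (fun t : ℂ => (1 - t) • y i + t • u) 1 := by fun_prop
          apply hcc.eventually_mem
          simpa using hB.mem_nhds huB
        filter_upwards [e1, e2, e3] with t ht1 ht2 ht3
        have hca := claimA n (by omega) ((1 - t) * c + t * ℓ n u) ⟨g t, ht1, by simp [hg, hw1], by
          simp [hg, hw2]; ring, by
            intro h0
            apply ht2
            rw [h0]; simp⟩
        apply det_eq_zero_of_finrank_le _ k hca (by simp)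
        intro i
        refine ⟨(1 - t) • y i + t • u, ⟨ht3 i, ?_⟩, rfl⟩
        simp [(hy i).2]
      have hD0 : D 0 = 0 := by
        apply oneD hΩc hDan h1Ω _ h0Ω
        apply Eventually.frequently
        exact hev.filter_mono nhdsWithin_le_nhds
      apply hdet
      rw [← hD0, hD]
      congr 1
      ext i l
      simp [← hyx]
    have hfin := ih (N + 1) (F ⧸ S) (fun x => S.mkQ (v x)) (by
      intro φ
      exact hv (φ.comp S.mkQ)) claimB
    have e : Submodule.span ℂ ((fun x => S.mkQ (v x)) '' B)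
          = (Submodule.span ℂ (v '' B)).map S.mkQ := by
        rw [Submodule.map_span, ← Set.image_comp]
        rfl
    rw [e] at hfin
    have := finrank_le_add_map_mkQ S (Submodule.span ℂ (v '' B))
    simp only [T]
    omega

end Pool.Agent.H47.HR
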