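import Mathlib

set_option autoImplicit false

namespace Pool.Agent.H47.HR

open Filter Topology
open scoped ENNReal NNReal

/-- complexification of a real formal multilinear series on `ι → ℝ` -/
noncomputable def cxSeries {ι : Type*} [Fintype ι] (p : FormalMultilinearSeries ℝ (ι → ℝ) ℝ) :
    FormalMultilinearSeries ℂ (ι → ℂ) ℂ := by
  classical
  exact fun m => ∑ w : Fin m → ι, ((p m (fun j => Pi.single (w j) 1) : ℝ) : ℂ) •
    (ContinuousMultilinearMap.mkPiAlgebra ℂ (Fin m) ℂ).compContinuousLinearMap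
      (fun j => ContinuousLinearMap.proj (R := ℂ) (φ := fun _ : ι => ℂ) (w j))

open Classical in
lemma cxSeries_apply {ι : Type*} [Fintype ι] (p : FormalMultilinearSeries ℝ (ι → ℝ) ℝ) (m : ℕ)
    (v : Fin m → (ι → ℂ)) :
    cxSeries p m v = ∑ w : Fin m → ι, ((p m (fun j => Pi.single (w j) 1) : ℝ) : ℂ) *
      ∏ j, v j (w j) := by
  simp [cxSeries]
  
open Classical in
lemma cxSeries_real {ι : Type*} [Fintype ι] (p : FormalMultilinearSeries ℝ (ι → ℝ) ℝ) (m : ℕ)
    (x : ι → ℝ) :
    cxSeries p m (fun _ => fun i => (x i : ℂ)) = ((p m (fun _ => x) : ℝ) : ℂ) := by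
  rw [cxSeries_apply]
  have hx : x = ∑ i, x i • (Pi.single i (1 : ℝ) : ι → ℝ) := by
    ext j
    simp [Finset.sum_apply, Pi.single_apply]
  have h1 : p m (fun _ => x) = ∑ w : Fin m → ι, (∏ j, x (w j)) * p m (fun j => Pi.single (w j) 1) := by
    conv_lhs => rw [hx]
    have := (p m).toMultilinearMap.map_sum (fun (_ : Fin m) (i : ι) => x i • (Pi.single i (1 : ℝ) : ι → ℝ))
    simp only [ContinuousMultilinearMap.coe_coe] at this
    rw [this]
    apply Finset.sum_congr rfl
    intro w _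
    have := (p m).toMultilinearMap.map_smul_univ (fun j => x (w j)) (fun j => (Pi.single (w j) (1 : ℝ) : ι → ℝ))
    simp only [ContinuousMultilinearMap.coe_coe, smul_eq_mul] at this
    rw [this]
  rw [h1]
  push_cast
  apply Finset.sum_congr rfl
  intro w _
  ring

open Classical in
lemma cxSeries_norm {ι : Type*} [Fintype ι] (p : FormalMultilinearSeries ℝ (ι → ℝ) ℝ) (m : ℕ) :
    ‖cxSeries p m‖ ≤ (Fintype.card ι : ℝ) ^ m * ‖p m‖ := by
  apply ContinuousMultilinearMap.opNorm_le_bound (by positivity)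
  intro v
  rw [cxSeries_apply]
  calc ‖∑ w : Fin m → ι, ((p m (fun j => Pi.single (w j) 1) : ℝ) : ℂ) * ∏ j, v j (w j)‖
      ≤ ∑ w : Fin m → ι, ‖((p m (fun j => Pi.single (w j) 1) : ℝ) : ℂ) * ∏ j, v j (w j)‖ := norm_sum_le _ _
    _ ≤ ∑ w : Fin m → ι, ‖p m‖ * ∏ j, ‖v j‖ := by
        apply Finset.sum_le_sum
        intro w _
        rw [norm_mul]
        apply mul_le_mul
        · rw [Complex.norm_real]
          have := (p m).le_opNorm (fun j => Pi.single (w j) (1 : ℝ))
          refine this.trans ?_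
          have h1 : ∏ j, ‖(Pi.single (w j) (1 : ℝ) : ι → ℝ)‖ ≤ 1 := by
            apply Finset.prod_le_one
            · intro j _; positivity
            · intro j _
              rw [pi_norm_le_iff_of_nonneg (by norm_num)]
              intro i
              by_cases hi : i = w j
              · subst hi; simp
              · simp [Pi.single_apply, hi]
          calc ‖p m‖ * ∏ j, ‖(Pi.single (w j) (1 : ℝ) : ι → ℝ)‖ ≤ ‖p m‖ * 1 := by gcongr
            _ = ‖p m‖ := by ring
        · rw [norm_prod]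
          apply Finset.prod_le_prod
          · intro j _; positivity
          · intro j _
            exact norm_le_pi_norm (v j) (w j)
        · positivity
        · positivity
    _ = (Fintype.card ι : ℝ) ^ m * ‖p m‖ * ∏ j, ‖v j‖ := by
        rw [Finset.sum_const]
        simp
        ring

theorem complexify {ι : Type*} [Fintype ι] (f : (ι → ℝ) → ℝ) (hf : AnalyticAt ℝ f 0) :
    ∃ F : (ι → ℂ) → ℂ, AnalyticAt ℂ F 0 ∧ ∀ᶠ x in 𝓝 (0 : ι → ℝ), F (fun i => (x i : ℂ)) = (f x : ℂ) := by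
  obtain ⟨p, hp⟩ := hf
  obtain ⟨r, hr⟩ := hp
  obtain ⟨s, hs0, hs1⟩ : ∃ s : ℝ≥0, 0 < s ∧ (s : ℝ≥0∞) < r := by
    obtain ⟨s, hs0, hs1⟩ := ENNReal.lt_iff_exists_nnreal_btwn.1 hr.r_pos
    exact ⟨s, by exact_mod_cast hs0, hs1⟩
  have hsr : (s : ℝ≥0∞) < p.radius := lt_of_lt_of_le hs1 hr.r_le
  obtain ⟨C, hC0, hC⟩ := p.norm_mul_pow_le_of_lt_radius hsr
  set N : ℝ≥0 := (Fintype.card ι : ℝ≥0) + 1 with hN
  have hrad : ((s / N : ℝ≥0) : ℝ≥0∞) ≤ (cxSeries p).radius := by
    apply FormalMultilinearSeries.le_radius_of_bound _ C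
    intro m
    have h1 := cxSeries_norm p m
    have hNpos : (0 : ℝ) < N := by rw [hN]; positivity
    have h2 : (Fintype.card ι : ℝ) / (N : ℝ) ≤ 1 := by
      rw [div_le_one hNpos, hN]; push_cast; linarith
    calc ‖cxSeries p m‖ * ((s / N : ℝ≥0) : ℝ) ^ m
        ≤ ((Fintype.card ι : ℝ) ^ m * ‖p m‖) * ((s / N : ℝ≥0) : ℝ) ^ m := by gcongr
      _ = ((Fintype.card ι : ℝ) / N) ^ m * (‖p m‖ * (s : ℝ) ^ m) := by
          push_cast
          rw [div_pow, div_pow]
          field_simp
      _ ≤ 1 * C := by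
          apply mul_le_mul _ (hC m) (by positivity) (by norm_num)
          exact pow_le_one₀ (by positivity) h2
      _ = C := one_mul _
  have hpos : 0 < (cxSeries p).radius := by
    refine lt_of_lt_of_le ?_ hrad
    have : 0 < s / N := by
      apply div_pos hs0
      rw [hN]; positivity
    exact_mod_cast this
  refine ⟨(cxSeries p).sum, ((cxSeries p).hasFPowerSeriesOnBall hpos).analyticAt, ?_⟩
  have hev : ∀ᶠ x in 𝓝 (0 : ι → ℝ), x ∈ Metric.eball (0 : ι → ℝ) r := by
    exact Metric.eball_mem_nhds _ hr.r_pos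
  filter_upwards [hev] with x hx
  have h1 := hr.hasSum hx
  rw [zero_add] at h1
  have h2 := Complex.hasSum_ofReal.2 h1
  simp only [FormalMultilinearSeries.sum, cxSeries_real]
  exact h2.tsum_eq

end Pool.Agent.H47.HR
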