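import Pool.Agent.H47.HR2
import Pool.Agent.H47.HR3

set_option autoImplicit false

namespace Pool.Agent.H47.HR

open Filter Topology
open scoped ENNReal NNReal ComplexConjugate

/-- componentwise conjugation -/
def cj {n : ℕ} (z : Fin n → ℂ) : Fin n → ℂ := fun i => conj (z i)

@[simp] lemma cj_cj {n : ℕ} (z : Fin n → ℂ) : cj (cj z) = z := by
  ext i; simp [cj]

lemma cj_mem_ball {n : ℕ} {z q : Fin n → ℂ} {r : ℝ} (hz : z ∈ Metric.ball q r) :
    cj z ∈ Metric.ball (cj q) r := by
  rw [mem_ball_iff_norm] at *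
  have : ‖cj z - cj q‖ = ‖z - q‖ := by
    rw [Pi.norm_def, Pi.norm_def]
    congr 2
    ext i
    simp only [cj, Pi.sub_apply, coe_nnnorm, ← map_sub, Complex.norm_conj]
  rwa [this]

/-- local polarisation of a real-analytic function -/
theorem local_polarization {n : ℕ} (p : (Fin n → ℂ) → ℝ) (q : Fin n → ℂ) (hp : AnalyticAt ℝ p q) :
    ∃ P : (Fin n → ℂ) × (Fin n → ℂ) → ℂ, AnalyticAt ℂ P (q, cj q) ∧
      ∀ᶠ z in 𝓝 q, P (z, cj z) = (p z : ℂ) := by
  -- real coordinates
  let A : ((Fin n ⊕ Fin n) → ℝ) →L[ℝ] (Fin n → ℂ) :=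
    ContinuousLinearMap.pi fun i =>
      ((Complex.ofRealCLM.comp (ContinuousLinearMap.proj (Sum.inl i))) +
        (Complex.I • (Complex.ofRealCLM.comp (ContinuousLinearMap.proj (Sum.inr i)))))
  have hA : ∀ v i, A v i = (v (Sum.inl i) : ℂ) + Complex.I * (v (Sum.inr i) : ℂ) := by
    intro v i
    simp [A]
  let f : ((Fin n ⊕ Fin n) → ℝ) → ℝ := fun v => p (q + A v)
  have hf : AnalyticAt ℝ f 0 := by
    have h1 : AnalyticAt ℝ p (q + A 0) := by simpa using hp
    have h2 : AnalyticAt ℝ (fun v => q + A v) 0 := by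
      exact AnalyticAt.add analyticAt_const (A.analyticAt 0)
    exact AnalyticAt.fun_comp (f := fun v => q + A v) h1 h2
  obtain ⟨F, hF, hFf⟩ := complexify f hf
  -- complex linear change of coordinates
  let B : ((Fin n → ℂ) × (Fin n → ℂ)) →L[ℂ] ((Fin n ⊕ Fin n) → ℂ) :=
    ContinuousLinearMap.pi fun s => Sum.elim
      (fun i => (1 / 2 : ℂ) • ((ContinuousLinearMap.proj i).comp (ContinuousLinearMap.fst ℂ _ _) +
        (ContinuousLinearMap.proj i).comp (ContinuousLinearMap.snd ℂ _ _)))
      (fun i => (1 / (2 * Complex.I) : ℂ) • ((ContinuousLinearMap.proj i).comp (ContinuousLinearMap.fst ℂ _ _) -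
        (ContinuousLinearMap.proj i).comp (ContinuousLinearMap.snd ℂ _ _))) s
  have hB1 : ∀ z w i, B (z, w) (Sum.inl i) = (1 / 2 : ℂ) * (z i + w i) := by
    intro z w i; simp [B]; ring
  have hB2 : ∀ z w i, B (z, w) (Sum.inr i) = (1 / (2 * Complex.I) : ℂ) * (z i - w i) := by
    intro z w i; simp [B]
  refine ⟨fun zw => F (B (zw - (q, cj q))), ?_, ?_⟩
  · have h1 : AnalyticAt ℂ F (B ((q, cj q) - (q, cj q))) := by simpa using hF
    have h2 : AnalyticAt ℂ (fun zw : (Fin n → ℂ) × (Fin n → ℂ) => B (zw - (q, cj q))) (q, cj q) := by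
      have : AnalyticAt ℂ (fun zw : (Fin n → ℂ) × (Fin n → ℂ) => zw - (q, cj q)) (q, cj q) :=
        analyticAt_id.sub analyticAt_const
      exact AnalyticAt.fun_comp (g := B) (B.analyticAt _) this
    exact AnalyticAt.fun_comp (g := F) (f := fun zw : (Fin n → ℂ) × (Fin n → ℂ) => B (zw - (q, cj q))) h1 h2
  · let C : (Fin n → ℂ) → ((Fin n ⊕ Fin n) → ℝ) := fun z =>
      Sum.elim (fun i => (z i - q i).re) (fun i => (z i - q i).im)
    have hC : ContinuousAt C q := by
      apply continuousAt_pi.2
      intro s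
      rcases s with i | i
      · simp only [C, Sum.elim_inl]
        exact Complex.continuous_re.continuousAt.comp'
          (((continuous_apply i).continuousAt).sub continuousAt_const)
      · simp only [C, Sum.elim_inr]
        exact Complex.continuous_im.continuousAt.comp'
          (((continuous_apply i).continuousAt).sub continuousAt_const)
    have hCq : C q = 0 := by
      ext s
      rcases s with i | i <;> simp [C]
    have h3 := hC.eventually (p := fun x => F (fun i => (x i : ℂ)) = (f x : ℂ)) (by rw [hCq]; exact hFf)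
    filter_upwards [h3] with z hz
    have e1 : (fun s => ((C z s : ℝ) : ℂ)) = B ((z, cj z) - (q, cj q)) := by
      ext s
      rcases s with i | i
      · simp only [Prod.mk_sub_mk]
        rw [hB1]
        simp only [C, Sum.elim_inl, Pi.sub_apply, cj]
        rw [← map_sub, Complex.add_conj]
        push_cast; ring
      · simp only [Prod.mk_sub_mk]
        rw [hB2]
        simp only [C, Sum.elim_inr, Pi.sub_apply, cj]
        rw [← map_sub, Complex.sub_conj]
        push_cast
        field_simp
    have e2 : q + A (C z) = z := by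
      ext i
      simp only [Pi.add_apply]
      rw [hA]
      simp only [C, Sum.elim_inl, Sum.elim_inr]
      have := Complex.re_add_im (z i - q i)
      linear_combination this
    rw [e1] at hz
    rw [hz]
    simp only [f]
    rw [e2]

end Pool.Agent.H47.HR
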