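import Pool.Agent.H47.HR4

set_option autoImplicit false

namespace Pool.Agent.H47.HR

open Filter Topology
open scoped ComplexConjugate

/-- an analytic function on a convex open set vanishing at the real points vanishes at `I` -/
lemma real_to_I {Ω : Set ℂ} (hΩc : Convex ℝ Ω) (hΩo : IsOpen Ω) (h0 : (0 : ℂ) ∈ Ω)
    (hI : Complex.I ∈ Ω) {f : ℂ → ℂ} (hf : AnalyticOnNhd ℂ f Ω)
    (hreal : ∀ t : ℝ, (t : ℂ) ∈ Ω → f t = 0) : f Complex.I = 0 := by
  apply oneD hΩc hf h0 _ hI
  have h1 : ∀ᶠ t in 𝓝 (0 : ℂ), t ∈ Ω := hΩo.mem_nhds h0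
  have h2 : Tendsto (fun t : ℝ => (t : ℂ)) (𝓝[≠] (0 : ℝ)) (𝓝[≠] (0 : ℂ)) := by
    apply tendsto_nhdsWithin_of_tendsto_nhds_of_eventually_within
    · have : ContinuousAt (fun t : ℝ => (t : ℂ)) 0 := Complex.continuous_ofReal.continuousAt
      have h3 : Tendsto (fun t : ℝ => (t : ℂ)) (𝓝 (0 : ℝ)) (𝓝 (0 : ℂ)) := by simpa using this.tendsto
      exact h3.mono_left nhdsWithin_le_nhds
    · filter_upwards [self_mem_nhdsWithin] with t ht
      simpa using ht
  have h3 : ∀ᶠ t : ℝ in 𝓝[≠] (0 : ℝ), f (t : ℂ) = 0 := by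
    have := h2.eventually (h1.filter_mono nhdsWithin_le_nhds)
    filter_upwards [this] with t ht
    exact hreal t ht
  exact h2.frequently h3.frequently

lemma analyticAt_conj_line {h : ℂ → ℂ} {t : ℂ} (hh : AnalyticAt ℂ h (conj t)) :
    AnalyticAt ℂ (fun t => conj (h (conj t))) t := by
  rw [Complex.analyticAt_iff_eventually_differentiableAt] at *
  have h1 : Tendsto (fun t : ℂ => conj t) (𝓝 t) (𝓝 (conj t)) := Complex.continuous_conj.tendsto t
  filter_upwards [h1.eventually hh] with s hs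
  have := hs.conj_conj
  rw [Complex.conj_conj] at this
  exact this

section

variable {m : ℕ} {k : ℕ}

/-- midpoint data -/
lemma mid_add (z w : Fin m → ℂ) :
    ((1 / 2 : ℂ) • (z + w)) + Complex.I • ((1 / (2 * Complex.I) : ℂ) • (z - w)) = z := by
  ext i
  simp only [Pi.add_apply, Pi.smul_apply, Pi.sub_apply, smul_eq_mul]
  field_simp
  ring

lemma mid_sub (z w : Fin m → ℂ) :
    ((1 / 2 : ℂ) • (z + w)) + (conj Complex.I) • ((1 / (2 * Complex.I) : ℂ) • (z - w)) = w := by
  ext i
  simp only [Pi.add_apply, Pi.smul_apply, Pi.sub_apply, smul_eq_mul, Complex.conj_I]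
  field_simp
  ring

/-- analyticity of the polarised form along a line -/
lemma analytic_form_line {g : Fin k → (Fin m → ℂ) → ℂ} (hg : ∀ j, Differentiable ℂ (g j))
    (ε : Fin k → ℝ) (a d : Fin m → ℂ) (t : ℂ) :
    AnalyticAt ℂ (fun t : ℂ => ∑ j, (ε j : ℂ) * (g j (a + t • d) * conj (g j (a + conj t • d)))) t := by
  apply Finset.analyticAt_fun_sum
  intro j _
  have hd : Differentiable ℂ (fun t : ℂ => g j (a + t • d)) := by
    have : Differentiable ℂ (fun t : ℂ => a + t • d) := by fun_prop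
    exact (hg j).comp this
  apply AnalyticAt.fun_mul analyticAt_const
  apply AnalyticAt.fun_mul
  · exact hd.analyticAt t
  · exact analyticAt_conj_line (h := fun t : ℂ => g j (a + t • d)) (hd.analyticAt _)

/-- two forms which agree with `p` on the same slice give the same polarisation -/
lemma pol_unique {p : (Fin m → ℂ) → ℝ} {z w : Fin m → ℂ}
    {g : Fin k → (Fin m → ℂ) → ℂ} (hg : ∀ j, Differentiable ℂ (g j)) {ε : Fin k → ℝ}
    {g' : Fin k → (Fin m → ℂ) → ℂ} (hg' : ∀ j, Differentiable ℂ (g' j)) {ε' : Fin k → ℝ}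
    {ℓ ℓ' : (Fin m → ℂ) →ₗ[ℂ] ℂ} {c c' : ℂ}
    (h : ∀ x, ℓ x = c → p x = ∑ j, ε j * Complex.normSq (g j x))
    (h' : ∀ x, ℓ' x = c' → p x = ∑ j, ε' j * Complex.normSq (g' j x))
    (hz : ℓ z = c) (hw : ℓ w = c) (hz' : ℓ' z = c') (hw' : ℓ' w = c') :
    ∑ j, (ε j : ℂ) * (g j z * conj (g j w)) = ∑ j, (ε' j : ℂ) * (g' j z * conj (g' j w)) := by
  set a := ((1 / 2 : ℂ) • (z + w)) with ha
  set d := ((1 / (2 * Complex.I) : ℂ) • (z - w)) with hd
  have key := real_to_I (Ω := Set.univ) convex_univ isOpen_univ (Set.mem_univ _) (Set.mem_univ _)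
    (f := fun t : ℂ => (∑ j, (ε j : ℂ) * (g j (a + t • d) * conj (g j (a + conj t • d))))
      - ∑ j, (ε' j : ℂ) * (g' j (a + t • d) * conj (g' j (a + conj t • d))))
    (fun t _ => (analytic_form_line hg ε a d t).sub (analytic_form_line hg' ε' a d t)) (by
      intro t _
      have e1 : ℓ (a + (t : ℂ) • d) = c := by
        simp [ha, hd, hz, hw]
        ring
      have e2 : ℓ' (a + (t : ℂ) • d) = c' := by
        simp [ha, hd, hz', hw']
        ring
      have h1 := h _ e1
      have h2 := h' _ e2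
      rw [h1] at h2
      have h3 := congrArg (fun x : ℝ => (x : ℂ)) h2
      push_cast at h3
      simp only [Complex.conj_ofReal, Complex.mul_conj]
      rw [h3]; ring)
  simp only [ha, hd, mid_add, mid_sub] at key
  exact sub_eq_zero.1 key

/-- local data: `P` is a local polarisation of `p` on the ball of radius `r` about `q` -/
structure LocData (p : (Fin m → ℂ) → ℝ) (q : Fin m → ℂ) (r : ℝ) (P : (Fin m → ℂ) × (Fin m → ℂ) → ℂ) :
    Prop where
  pos : 0 < r
  an : ∀ z ∈ Metric.ball q r, ∀ w ∈ Metric.ball q r, AnalyticAt ℂ P (z, cj w)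
  eq : ∀ z ∈ Metric.ball q r, P (z, cj z) = (p z : ℂ)

lemma exists_locData (p : (Fin m → ℂ) → ℝ) (q : Fin m → ℂ) (hp : AnalyticAt ℝ p q) :
    ∃ r P, LocData p q r P := by
  obtain ⟨P, hP, hev⟩ := local_polarization p q hp
  have h1 := hP.eventually_analyticAt
  rw [nhds_prod_eq] at h1
  obtain ⟨s, hs, t, ht, hst⟩ := Filter.eventually_prod_iff.1 h1
  obtain ⟨r1, hr1, h1⟩ := Metric.eventually_nhds_iff_ball.1 hs
  obtain ⟨r2, hr2, h2⟩ := Metric.eventually_nhds_iff_ball.1 ht
  obtain ⟨r3, hr3, h3⟩ := Metric.eventually_nhds_iff_ball.1 hev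
  refine ⟨min r1 (min r2 r3), P, ⟨by positivity, ?_, ?_⟩⟩
  · intro z hz w hw
    apply hst
    · apply h1
      exact Metric.ball_subset_ball (min_le_left _ _) hz
    · apply h2
      apply cj_mem_ball
      exact Metric.ball_subset_ball ((min_le_right _ _).trans (min_le_left _ _)) hw
  · intro z hz
    apply h3
    exact Metric.ball_subset_ball ((min_le_right _ _).trans (min_le_right _ _)) hz

lemma cj_affine (a d : Fin m → ℂ) (t : ℂ) : cj (a + conj t • d) = cj a + t • cj d := by
  ext i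
  simp [cj]

lemma pol_local {p : (Fin m → ℂ) → ℝ} {q : Fin m → ℂ} {r : ℝ} {P : (Fin m → ℂ) × (Fin m → ℂ) → ℂ}
    (hL : LocData p q r P) {z w : Fin m → ℂ} (hzB : z ∈ Metric.ball q r) (hwB : w ∈ Metric.ball q r)
    {g : Fin k → (Fin m → ℂ) → ℂ} (hg : ∀ j, Differentiable ℂ (g j)) {ε : Fin k → ℝ}
    {ℓ : (Fin m → ℂ) →ₗ[ℂ] ℂ} {c : ℂ}
    (h : ∀ x, ℓ x = c → p x = ∑ j, ε j * Complex.normSq (g j x))
    (hz : ℓ z = c) (hw : ℓ w = c) :
    ∑ j, (ε j : ℂ) * (g j z * conj (g j w)) = P (z, cj w) := by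
  set a := ((1 / 2 : ℂ) • (z + w)) with ha
  set d := ((1 / (2 * Complex.I) : ℂ) • (z - w)) with hd
  set Ω : Set ℂ := {t | a + t • d ∈ Metric.ball q r ∧ a + conj t • d ∈ Metric.ball q r} with hΩ
  have hΩc : Convex ℝ Ω := by
    intro s hs t ht α β hα hβ hαβ
    have hb : (β : ℝ) = 1 - α := by linarith
    subst hb
    constructor
    · have h1 := (convex_ball q r) hs.1 ht.1 hα hβ hαβ
      convert h1 using 1
      ext j
      simp
      ring
    · have h1 := (convex_ball q r) hs.2 ht.2 hα hβ hαβ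
      convert h1 using 1
      ext j
      simp
      ring
  have hc1 : Continuous (fun t : ℂ => a + t • d) := by fun_prop
  have hc2 : Continuous (fun t : ℂ => a + conj t • d) := by
    exact continuous_const.add (Complex.continuous_conj.smul continuous_const)
  have hΩo : IsOpen Ω := by
    exact (Metric.isOpen_ball.preimage hc1).inter (Metric.isOpen_ball.preimage hc2)
  have hI : Complex.I ∈ Ω := by
    refine ⟨?_, ?_⟩
    · rw [ha, hd, mid_add]; exact hzB
    · rw [ha, hd, mid_sub]; exact hwB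
  have haB : a ∈ Metric.ball q r := by
    have h1 := (convex_ball q r) hzB hwB (a := 1/2) (b := 1/2) (by norm_num) (by norm_num) (by norm_num)
    convert h1 using 1
    ext j
    simp [ha]
  have h0 : (0 : ℂ) ∈ Ω := by
    constructor <;> simpa using haB
  have key := real_to_I hΩc hΩo h0 hI
    (f := fun t : ℂ => (∑ j, (ε j : ℂ) * (g j (a + t • d) * conj (g j (a + conj t • d))))
      - P (a + t • d, cj a + t • cj d))
    (fun t ht => (analytic_form_line hg ε a d t).sub (by
      have h1 := hL.an _ ht.1 _ ht.2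
      rw [cj_affine] at h1
      have h2 : AnalyticAt ℂ (fun t : ℂ => (a + t • d, cj a + t • cj d)) t := by fun_prop
      exact AnalyticAt.fun_comp (g := P) (f := fun t : ℂ => (a + t • d, cj a + t • cj d)) h1 h2)) (by
      intro t ht
      have e1 : ℓ (a + (t : ℂ) • d) = c := by
        simp [ha, hd, hz, hw]
        ring
      have h1 := h _ e1
      have h2 := hL.eq _ ht.1
      have h3 := cj_affine a d t
      rw [Complex.conj_ofReal] at h3
      rw [h3, h1] at h2
      simp only [Complex.conj_ofReal, Complex.mul_conj]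
      rw [h2]
      push_cast
      ring)
  have h3 := cj_affine a d Complex.I
  rw [← h3] at key
  simp only [ha, hd, mid_add, mid_sub] at key
  exact sub_eq_zero.1 key

end

end Pool.Agent.H47.HR
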