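import Pool.Agent.H47.HR5

set_option autoImplicit false

namespace Pool.Agent.H47.HR

open Filter Topology Module
open scoped ComplexConjugate

variable {n k : ℕ}

/-- every hyperplane slice has a representation by functions entire on the whole space -/
def HasReps (k : ℕ) (p : (Fin n → ℂ) → ℝ) : Prop :=
  ∀ ℓ : (Fin n → ℂ) →ₗ[ℂ] ℂ, ℓ ≠ 0 → ∀ c : ℂ, ∃ (ε : Fin k → ℝ) (g : Fin k → (Fin n → ℂ) → ℂ),
    (∀ j, Differentiable ℂ (g j)) ∧ ∀ x, ℓ x = c → p x = ∑ j, ε j * Complex.normSq (g j x)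

lemma hasReps_of_hyp {p : (Fin n → ℂ) → ℝ}
    (hyp : ∀ (a : Fin n → ℂ) (L : (Fin (n - 1) → ℂ) →ₗ[ℂ] (Fin n → ℂ)),
        Function.Injective L →
        ∃ (ε : Fin k → ℝ) (g : Fin k → (Fin (n - 1) → ℂ) → ℂ),
          (∀ j, ε j = 1 ∨ ε j = -1) ∧ (∀ j, Differentiable ℂ (g j)) ∧
          ∀ x, p (a + L x) = ∑ j, ε j * Complex.normSq (g j x)) : HasReps k p := by
  intro ℓ hℓ c
  obtain ⟨a, ha⟩ := LinearMap.surjective hℓ c
  have hfin : finrank ℂ (Fin (n - 1) → ℂ) = finrank ℂ (LinearMap.ker ℓ) := by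
    have h1 := Module.Dual.finrank_ker_add_one_of_ne_zero (f := ℓ) hℓ
    rw [Module.finrank_fin_fun] at *
    omega
  let e : (Fin (n - 1) → ℂ) ≃ₗ[ℂ] (LinearMap.ker ℓ) := LinearEquiv.ofFinrankEq _ _ hfin
  let L : (Fin (n - 1) → ℂ) →ₗ[ℂ] (Fin n → ℂ) := (Submodule.subtype _).comp e.toLinearMap
  have hL : Function.Injective L := by
    intro x y hxy
    exact e.injective (Subtype.ext hxy)
  obtain ⟨R, hR⟩ := LinearMap.exists_leftInverse_of_injective L (LinearMap.ker_eq_bot.2 hL)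
  obtain ⟨ε, g, -, hg, hrep⟩ := hyp a L hL
  refine ⟨ε, fun j z => g j (R (z - a)), ?_, ?_⟩
  · intro j
    have hRd : Differentiable ℂ R := (LinearMap.toContinuousLinearMap R).differentiable
    exact (hg j).comp (hRd.comp (differentiable_id.sub_const a))
  · intro x hx
    have hmem : x - a ∈ LinearMap.ker ℓ := by
      rw [LinearMap.mem_ker, map_sub, hx, ha, sub_self]
    have h1 : L (e.symm ⟨x - a, hmem⟩) = x - a := by
      simp [L]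
    have h2 := hrep (e.symm ⟨x - a, hmem⟩)
    rw [h1, add_sub_cancel] at h2
    rw [h2]
    apply Finset.sum_congr rfl
    intro j _
    have h3 : R (x - a) = e.symm ⟨x - a, hmem⟩ := by
      have h4 : R (L (e.symm ⟨x - a, hmem⟩)) = e.symm ⟨x - a, hmem⟩ :=
        congrArg (fun φ => φ (e.symm ⟨x - a, hmem⟩)) hR
      rwa [h1] at h4
    simp only
    rw [h3]

lemma exists_functional (hn : 2 ≤ n) (d : Fin n → ℂ) : ∃ ℓ : (Fin n → ℂ) →ₗ[ℂ] ℂ, ℓ ≠ 0 ∧ ℓ d = 0 := by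
  have h1 : Submodule.span ℂ {d} < ⊤ := by
    rw [lt_top_iff_ne_top]
    intro h
    have h2 := finrank_span_le_card (R := ℂ) ({d} : Set (Fin n → ℂ))
    rw [h, finrank_top, Module.finrank_fin_fun] at h2
    simp at h2
    omega
  obtain ⟨ℓ, h2, h3⟩ := Submodule.exists_le_ker_of_lt_top _ h1
  exact ⟨ℓ, h2, h3 (Submodule.mem_span_singleton_self d)⟩

/-- `K` is the global polarisation of `p` -/
def IsPol (k : ℕ) (p : (Fin n → ℂ) → ℝ) (K : (Fin n → ℂ) → (Fin n → ℂ) → ℂ) : Prop :=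
  ∀ (ℓ : (Fin n → ℂ) →ₗ[ℂ] ℂ), ℓ ≠ 0 → ∀ (c : ℂ) (ε : Fin k → ℝ) (g : Fin k → (Fin n → ℂ) → ℂ),
    (∀ j, Differentiable ℂ (g j)) → (∀ x, ℓ x = c → p x = ∑ j, ε j * Complex.normSq (g j x)) →
    ∀ z w, ℓ z = c → ℓ w = c → K z w = ∑ j, (ε j : ℂ) * (g j z * conj (g j w))

lemma exists_pol (hn : 2 ≤ n) {p : (Fin n → ℂ) → ℝ} (hp : HasReps k p) : ∃ K, IsPol k p K := by
  have : ∀ z w : Fin n → ℂ, ∃ κ : ℂ, ∀ (ℓ : (Fin n → ℂ) →ₗ[ℂ] ℂ), ℓ ≠ 0 →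
      ∀ (c : ℂ) (ε : Fin k → ℝ) (g : Fin k → (Fin n → ℂ) → ℂ),
    (∀ j, Differentiable ℂ (g j)) → (∀ x, ℓ x = c → p x = ∑ j, ε j * Complex.normSq (g j x)) →
    ℓ z = c → ℓ w = c → κ = ∑ j, (ε j : ℂ) * (g j z * conj (g j w)) := by
    intro z w
    obtain ⟨ℓ, h0, h1⟩ := exists_functional hn (z - w)
    obtain ⟨ε, g, hg, hrep⟩ := hp ℓ h0 (ℓ z)
    refine ⟨∑ j, (ε j : ℂ) * (g j z * conj (g j w)), ?_⟩
    intro ℓ' _ c' ε' g' hg' hrep' hz' hw'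
    have hw : ℓ w = ℓ z := by
      rw [map_sub] at h1
      exact (sub_eq_zero.1 h1).symm
    exact pol_unique hg hg' hrep hrep' rfl hw hz' hw'
  choose K hK using this
  exact ⟨K, fun ℓ h0 c ε g hg hrep z w hz hw => hK z w ℓ h0 c ε g hg hrep hz hw⟩

section

variable {p : (Fin n → ℂ) → ℝ} {K : (Fin n → ℂ) → (Fin n → ℂ) → ℂ}

lemma pol_conj (hn : 2 ≤ n) (hp : HasReps k p) (hK : IsPol k p K) (z w : Fin n → ℂ) :
    K w z = conj (K z w) := by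
  obtain ⟨ℓ, h0, h1⟩ := exists_functional hn (z - w)
  obtain ⟨ε, g, hg, hrep⟩ := hp ℓ h0 (ℓ z)
  have hw : ℓ w = ℓ z := by
    rw [map_sub] at h1
    exact (sub_eq_zero.1 h1).symm
  rw [hK ℓ h0 _ ε g hg hrep z w rfl hw, hK ℓ h0 _ ε g hg hrep w z hw rfl, map_sum]
  apply Finset.sum_congr rfl
  intro j _
  simp only [map_mul, Complex.conj_conj, Complex.conj_ofReal]
  ring

lemma pol_diag (hn : 2 ≤ n) (hp : HasReps k p) (hK : IsPol k p K) (z : Fin n → ℂ) :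
    K z z = (p z : ℂ) := by
  obtain ⟨ℓ, h0, h1⟩ := exists_functional hn (z - z)
  obtain ⟨ε, g, hg, hrep⟩ := hp ℓ h0 (ℓ z)
  rw [hK ℓ h0 _ ε g hg hrep z z rfl rfl, hrep z rfl]
  push_cast
  apply Finset.sum_congr rfl
  intro j _
  rw [Complex.mul_conj]

lemma pol_loc (hn : 2 ≤ n) (hp : HasReps k p) (hK : IsPol k p K) {q : Fin n → ℂ} {r : ℝ}
    {P : (Fin n → ℂ) × (Fin n → ℂ) → ℂ} (hL : LocData p q r P) {z w : Fin n → ℂ}
    (hz : z ∈ Metric.ball q r) (hw : w ∈ Metric.ball q r) : K z w = P (z, cj w) := by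
  obtain ⟨ℓ, h0, h1⟩ := exists_functional hn (z - w)
  obtain ⟨ε, g, hg, hrep⟩ := hp ℓ h0 (ℓ z)
  have hw' : ℓ w = ℓ z := by
    rw [map_sub] at h1
    exact (sub_eq_zero.1 h1).symm
  rw [hK ℓ h0 _ ε g hg hrep z w rfl hw']
  exact pol_local hL hz hw hg hrep rfl hw'

lemma pol_slice (hp : HasReps k p) (hK : IsPol k p K) (ℓ : (Fin n → ℂ) →ₗ[ℂ] ℂ) (h0 : ℓ ≠ 0)
    (c : ℂ) : ∃ g h : Fin k → (Fin n → ℂ) → ℂ, ∀ z w, ℓ z = c → ℓ w = c →
      K z w = ∑ j, g j z * h j w := by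
  obtain ⟨ε, g, hg, hrep⟩ := hp ℓ h0 c
  refine ⟨fun j z => ε j * g j z, fun j w => conj (g j w), ?_⟩
  intro z w hz hw
  rw [hK ℓ h0 _ ε g hg hrep z w hz hw]
  apply Finset.sum_congr rfl
  intro j _
  ring

lemma pol_line (hn : 2 ≤ n) (hp : HasReps k p) (hK : IsPol k p K) (y v : Fin n → ℂ) (t : ℂ) :
    AnalyticAt ℂ (fun t : ℂ => K (y + t • v) y) t := by
  obtain ⟨ℓ, h0, h1⟩ := exists_functional hn v
  obtain ⟨ε, g, hg, hrep⟩ := hp ℓ h0 (ℓ y)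
  have e : (fun t : ℂ => K (y + t • v) y) =
      (fun t : ℂ => ∑ j, (ε j : ℂ) * (g j (y + t • v) * conj (g j y))) := by
    ext t
    rw [hK ℓ h0 _ ε g hg hrep (y + t • v) y (by simp [h1]) rfl]
  rw [e]
  apply Finset.analyticAt_fun_sum
  intro j _
  have hd : Differentiable ℂ (fun t : ℂ => g j (y + t • v)) := by
    have : Differentiable ℂ (fun t : ℂ => y + t • v) := by fun_prop
    exact (hg j).comp this
  apply AnalyticAt.fun_mul analyticAt_const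
  exact (hd.analyticAt t).fun_mul analyticAt_const

end

end Pool.Agent.H47.HR
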