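import Pool.Agent.H47.HR6

set_option autoImplicit false

namespace Pool.Agent.H47.HR

open Filter Topology Module
open scoped ComplexConjugate

variable {m k : ℕ} {p : (Fin (m + 2) → ℂ) → ℝ} {K : (Fin (m + 2) → ℂ) → (Fin (m + 2) → ℂ) → ℂ}

/-- the functional `x ↦ x 0 + α x 1` -/
noncomputable def lf (α : ℂ) : (Fin (m + 2) → ℂ) →ₗ[ℂ] ℂ :=
  LinearMap.proj 0 + α • LinearMap.proj 1

lemma lf_apply (α : ℂ) (x : Fin (m + 2) → ℂ) : lf α x = x 0 + α * x 1 := by
  simp [lf]

lemma lf_ne (α : ℂ) : (lf α : (Fin (m + 2) → ℂ) →ₗ[ℂ] ℂ) ≠ 0 := by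
  intro h
  have := congrArg (fun φ => φ (Pi.single 0 1)) h
  simp [lf_apply] at this

/-- moving the point `x` in direction `e₀` -/
def mv (x : Fin (m + 2) → ℂ) (s : ℂ) : Fin (m + 2) → ℂ := x + (s - x 0) • Pi.single 0 1

lemma mv_zero (x : Fin (m + 2) → ℂ) (s : ℂ) : mv x s 0 = s := by
  simp [mv]

lemma mv_ne (x : Fin (m + 2) → ℂ) (s : ℂ) {i : Fin (m + 2)} (hi : i ≠ 0) : mv x s i = x i := by
  simp [mv, hi]

lemma mv_self (x : Fin (m + 2) → ℂ) : mv x (x 0) = x := by
  simp [mv]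

lemma mv_mem {x q : Fin (m + 2) → ℂ} {ρ R : ℝ} (hρR : ρ ≤ R) (hx : x ∈ Metric.ball q ρ) {s : ℂ}
    (hs : ‖s - q 0‖ < R) : mv x s ∈ Metric.ball q R := by
  have hR : 0 < R := lt_of_le_of_lt (norm_nonneg _) hs
  rw [mem_ball_iff_norm, pi_norm_lt_iff hR]
  intro i
  by_cases hi : i = 0
  · subst hi
    rw [Pi.sub_apply, mv_zero]
    exact hs
  · rw [Pi.sub_apply, mv_ne _ _ hi]
    rw [mem_ball_iff_norm] at hx
    exact lt_of_lt_of_le (lt_of_le_of_lt (norm_le_pi_norm (x - q) i) hx) hρR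

lemma coord_lt {x q : Fin (m + 2) → ℂ} {ρ : ℝ} (hx : x ∈ Metric.ball q ρ) (i : Fin (m + 2)) :
    ‖x i - q i‖ < ρ := by
  rw [mem_ball_iff_norm] at hx
  exact lt_of_le_of_lt (norm_le_pi_norm (x - q) i) hx

lemma mid_mem {x w q : Fin (m + 2) → ℂ} {ρ R : ℝ} (h3 : 3 * ρ ≤ R) (hx : x ∈ Metric.ball q ρ)
    (hw : w ∈ Metric.ball q ρ) {α α' c c' : ℂ} (hα' : ‖α'‖ ≤ 1)
    (hxc : x 0 + α * x 1 = c) (hwc : w 0 + α' * w 1 = c') :
    mv x ((1 / 2 : ℂ) * (c + c') - (1 / 2 : ℂ) * (α + α') * x 1) ∈ Metric.ball q R := by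
  have hρ : 0 < ρ := lt_of_le_of_lt (norm_nonneg _) (mem_ball_iff_norm.1 hx)
  apply mv_mem (by linarith) hx
  have e : (1 / 2 : ℂ) * (c + c') - (1 / 2 : ℂ) * (α + α') * x 1 - q 0 =
      (1 / 2 : ℂ) * (x 0 - q 0) + (1 / 2 : ℂ) * ((w 0 - q 0) + α' * ((w 1 - q 1) - (x 1 - q 1))) := by
    rw [← hxc, ← hwc]; ring
  rw [e]
  have h1 := coord_lt hx 0
  have h2 := coord_lt hw 0
  have h3 := coord_lt hw 1
  have h4 := coord_lt hx 1
  calc ‖(1 / 2 : ℂ) * (x 0 - q 0) + (1 / 2 : ℂ) * ((w 0 - q 0) + α' * ((w 1 - q 1) - (x 1 - q 1)))‖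
      ≤ ‖(1 / 2 : ℂ) * (x 0 - q 0)‖ + ‖(1 / 2 : ℂ) * ((w 0 - q 0) + α' * ((w 1 - q 1) - (x 1 - q 1)))‖ :=
        norm_add_le _ _
    _ = (1 / 2) * ‖x 0 - q 0‖ + (1 / 2) * ‖(w 0 - q 0) + α' * ((w 1 - q 1) - (x 1 - q 1))‖ := by
        rw [norm_mul, norm_mul]; norm_num
    _ ≤ (1 / 2) * ‖x 0 - q 0‖ + (1 / 2) * (‖w 0 - q 0‖ + ‖α'‖ * (‖w 1 - q 1‖ + ‖x 1 - q 1‖)) := by
        gcongr
        refine (norm_add_le _ _).trans ?_
        gcongr
        rw [norm_mul]
        gcongr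
        exact norm_sub_le _ _
    _ ≤ (1 / 2) * ‖x 0 - q 0‖ + (1 / 2) * (‖w 0 - q 0‖ + 1 * (‖w 1 - q 1‖ + ‖x 1 - q 1‖)) := by
        gcongr
    _ < R := by linarith

lemma det_factor_zero {ι : Type*} [Fintype ι] [DecidableEq ι] (hι : k < Fintype.card ι)
    (G : ι → Fin k → ℂ) (H : Fin k → ι → ℂ) :
    (Matrix.of fun i l => ∑ s, G i s * H s l).det = 0 := by
  have h := det_eq_zero_of_finrank_le (F := Fin k → ℂ) Set.univ k
    (by rw [Submodule.span_univ, finrank_top, Module.finrank_fin_fun]) hι G (fun _ => Set.mem_univ _)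
    (Matrix.vecMulLinear (Matrix.of H))
  rw [← h]
  congr 1

theorem cross_zero (hp : HasReps k p) (hK : IsPol k p K) {q : Fin (m + 2) → ℂ} {ρ R : ℝ}
    {P : (Fin (m + 2) → ℂ) × (Fin (m + 2) → ℂ) → ℂ} (hL : LocData p q R P) (h3 : 3 * ρ ≤ R)
    {α α' c c' : ℂ} (hα : ‖α‖ ≤ 1) (hα' : ‖α'‖ ≤ 1)
    {ι κ : Type*} [Fintype ι] [DecidableEq ι] [Fintype κ] (hι : k < Fintype.card ι)
    (x : ι → (Fin (m + 2) → ℂ)) (hx : ∀ i, x i ∈ Metric.ball q ρ) (hxc : ∀ i, x i 0 + α * x i 1 = c)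
    (w : κ → (Fin (m + 2) → ℂ)) (hw : ∀ i, w i ∈ Metric.ball q ρ) (hwc : ∀ i, w i 0 + α' * w i 1 = c')
    (A : ι → κ → ℂ) :
    (Matrix.of fun i l => ∑ j, A l j * K (x i) (w j)).det = 0 := by
  have hιne : Nonempty ι := Fintype.card_pos_iff.1 (by omega)
  obtain ⟨i0⟩ := hιne
  rcases isEmpty_or_nonempty κ with hκ | ⟨⟨j0⟩⟩
  · simp only [Finset.univ_eq_empty, Finset.sum_empty]
    have : (Matrix.of fun (_ : ι) (_ : ι) => (0 : ℂ)) = 0 := rfl
    rw [this]
    have : Nonempty ι := ⟨i0⟩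
    exact Matrix.det_zero
  have hρ : 0 < ρ := lt_of_le_of_lt (norm_nonneg _) (mem_ball_iff_norm.1 (hx i0))
  have hρR : ρ ≤ R := by linarith
  -- the families
  set ct : ℂ → ℂ := fun t => (1 / 2 : ℂ) * (c + c') + t * ((1 / (2 * Complex.I)) * (c - c')) with hct
  set αt : ℂ → ℂ := fun t => (1 / 2 : ℂ) * (α + α') + t * ((1 / (2 * Complex.I)) * (α - α')) with hαt
  set X : ι → ℂ → (Fin (m + 2) → ℂ) := fun i t => mv (x i) (ct t - αt t * x i 1) with hX
  set W : κ → ℂ → (Fin (m + 2) → ℂ) := fun j t => mv (w j) (ct t - αt t * w j 1) with hW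
  set aX : ι → (Fin (m + 2) → ℂ) := fun i =>
    mv (x i) ((1 / 2 : ℂ) * (c + c') - (1 / 2 : ℂ) * (α + α') * x i 1) with haX
  set dX : ι → (Fin (m + 2) → ℂ) := fun i =>
    ((1 / (2 * Complex.I)) * (c - c') - ((1 / (2 * Complex.I)) * (α - α')) * x i 1) • Pi.single 0 1 with hdX
  set aW : κ → (Fin (m + 2) → ℂ) := fun i =>
    mv (w i) ((1 / 2 : ℂ) * (c + c') - (1 / 2 : ℂ) * (α + α') * w i 1) with haW
  set dW : κ → (Fin (m + 2) → ℂ) := fun i =>
    ((1 / (2 * Complex.I)) * (c - c') - ((1 / (2 * Complex.I)) * (α - α')) * w i 1) • Pi.single 0 1 with hdW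
  have hXa : ∀ i t, X i t = aX i + t • dX i := by
    intro i t
    ext j
    simp only [hX, haX, hdX, mv, hct, hαt, Pi.add_apply, Pi.smul_apply, smul_eq_mul]
    ring
  have hWa : ∀ i t, W i t = aW i + t • dW i := by
    intro i t
    ext j
    simp only [hW, haW, hdW, mv, hct, hαt, Pi.add_apply, Pi.smul_apply, smul_eq_mul]
    ring
  have hXI : ∀ i, X i Complex.I = x i := by
    intro i
    have e : ct Complex.I - αt Complex.I * x i 1 = x i 0 := by
      simp only [hct, hαt]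
      field_simp
      linear_combination (-2) * (hxc i)
    simp only [hX]
    rw [e, mv_self]
  have hWI : ∀ i, W i (conj Complex.I) = w i := by
    intro i
    have e : ct (conj Complex.I) - αt (conj Complex.I) * w i 1 = w i 0 := by
      simp only [hct, hαt, Complex.conj_I]
      field_simp
      linear_combination (-2) * (hwc i)
    simp only [hW]
    rw [e, mv_self]
  set Ω : Set ℂ := {t | (∀ i, X i t ∈ Metric.ball q R) ∧ (∀ j, W j (conj t) ∈ Metric.ball q R)} with hΩ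
  have hΩc : Convex ℝ Ω := by
    intro s hs t ht a b ha hb hab
    have hb' : (b : ℝ) = 1 - a := by linarith
    subst hb'
    constructor
    · intro i
      have h1 := (convex_ball q R) (hs.1 i) (ht.1 i) ha hb hab
      convert h1 using 1
      simp only [hXa]
      ext j
      simp
      ring
    · intro i
      have h1 := (convex_ball q R) (hs.2 i) (ht.2 i) ha hb hab
      convert h1 using 1
      simp only [hWa]
      ext j
      simp
      ring
  have hcX : ∀ i, Continuous (X i) := by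
    intro i
    have : X i = fun t => aX i + t • dX i := funext (hXa i)
    rw [this]
    fun_prop
  have hcW : ∀ i, Continuous (W i) := by
    intro i
    have : W i = fun t => aW i + t • dW i := funext (hWa i)
    rw [this]
    fun_prop
  have hΩo : IsOpen Ω := by
    have e : Ω = (⋂ i, (X i) ⁻¹' Metric.ball q R) ∩ (⋂ j, (fun t => W j (conj t)) ⁻¹' Metric.ball q R) := by
      ext t
      simp [hΩ]
    rw [e]
    apply IsOpen.inter
    · exact isOpen_iInter_of_finite fun i => Metric.isOpen_ball.preimage (hcX i)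
    · exact isOpen_iInter_of_finite fun j =>
        Metric.isOpen_ball.preimage ((hcW j).comp Complex.continuous_conj)
  have hIΩ : Complex.I ∈ Ω := by
    constructor
    · intro i; rw [hXI]; exact Metric.ball_subset_ball hρR (hx i)
    · intro j; rw [hWI]; exact Metric.ball_subset_ball hρR (hw j)
  have h0Ω : (0 : ℂ) ∈ Ω := by
    constructor
    · intro i
      rw [hXa, zero_smul, add_zero]
      exact mid_mem h3 (hx i) (hw j0) hα' (hxc i) (hwc j0)
    · intro j
      rw [map_zero, hWa, zero_smul, add_zero]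
      have := mid_mem h3 (hw j) (hx i0) hα (hwc j) (hxc i0)
      rw [add_comm c' c, add_comm α' α] at this
      exact this
  set f : ℂ → ℂ := fun t => (Matrix.of fun i l => ∑ j, A l j * P (X i t, cj (W j (conj t)))).det with hf
  have hfan : AnalyticOnNhd ℂ f Ω := by
    intro t ht
    apply analytic_det
    intro i l
    apply Finset.analyticAt_fun_sum
    intro j _
    apply AnalyticAt.fun_mul analyticAt_const
    have h1 := hL.an _ (ht.1 i) _ (ht.2 j)
    have e : ∀ t, cj (W j (conj t)) = cj (aW j) + t • cj (dW j) := by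
      intro t
      rw [hWa, cj_affine]
    have h2 : AnalyticAt ℂ (fun t : ℂ => (X i t, cj (W j (conj t)))) t := by
      have e2 : (fun t : ℂ => (X i t, cj (W j (conj t)))) =
          (fun t : ℂ => (aX i + t • dX i, cj (aW j) + t • cj (dW j))) := by
        funext t
        rw [hXa, e]
      rw [e2]
      fun_prop
    exact AnalyticAt.fun_comp (g := P) (f := fun t : ℂ => (X i t, cj (W j (conj t)))) h1 h2
  have key := real_to_I hΩc hΩo h0Ω hIΩ hfan (by
    intro t ht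
    obtain ⟨g, h, hgh⟩ := pol_slice hp hK (lf (αt t)) (lf_ne _) (ct t)
    have hXl : ∀ i, lf (αt t) (X i t) = ct t := by
      intro i
      rw [lf_apply]
      simp only [hX]
      rw [mv_zero, mv_ne _ _ (by simp)]
      ring
    have hWl : ∀ i, lf (αt t) (W i t) = ct t := by
      intro i
      rw [lf_apply]
      simp only [hW]
      rw [mv_zero, mv_ne _ _ (by simp)]
      ring
    simp only [hf]
    rw [← det_factor_zero hι (fun i s => g s (X i t)) (fun s l => ∑ j, A l j * h s (W j t))]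
    congr 1
    ext i l
    simp only [Matrix.of_apply]
    simp_rw [Finset.mul_sum]
    rw [Finset.sum_comm]
    apply Finset.sum_congr rfl
    intro j _
    have h1 := pol_loc (by omega) hp hK hL (ht.1 i) (ht.2 j)
    rw [← h1, Complex.conj_ofReal, hgh _ _ (hXl i) (hWl j), Finset.mul_sum]
    apply Finset.sum_congr rfl
    intro s _
    ring)
  rw [← key]
  simp only [hf]
  congr 1
  ext i l
  simp only [Matrix.of_apply]
  apply Finset.sum_congr rfl
  intro j _
  rw [hXI, hWI, pol_loc (by omega) hp hK hL (Metric.ball_subset_ball hρR (hx i))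
    (Metric.ball_subset_ball hρR (hw j))]

end Pool.Agent.H47.HR
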