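import Pool.Agent.H47.HR7

set_option autoImplicit false

namespace Pool.Agent.H47.HR

open Filter Topology Module
open scoped ComplexConjugate

variable {m k : ℕ} {p : (Fin (m + 2) → ℂ) → ℝ} {K : (Fin (m + 2) → ℂ) → (Fin (m + 2) → ℂ) → ℂ}

/-- a linear functional on `ℂ^N` is a combination of coordinates -/
lemma functional_eq {N : ℕ} (φ : (Fin N → ℂ) →ₗ[ℂ] ℂ) (u : Fin N → ℂ) :
    φ u = ∑ j, φ (Pi.single j 1) * u j := by
  conv_lhs => rw [pi_eq_sum_univ' u]
  rw [map_sum]
  apply Finset.sum_congr rfl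
  intro j _
  rw [map_smul, smul_eq_mul, mul_comm]

lemma analytic_left (hp : HasReps k p) (hK : IsPol k p K) {q : Fin (m + 2) → ℂ} {R : ℝ}
    {P : (Fin (m + 2) → ℂ) × (Fin (m + 2) → ℂ) → ℂ} (hL : LocData p q R P)
    {w : Fin (m + 2) → ℂ} (hw : w ∈ Metric.ball q R) {x : Fin (m + 2) → ℂ}
    (hx : x ∈ Metric.ball q R) : AnalyticAt ℂ (fun x => K x w) x := by
  have h1 := hL.an x hx w hw
  have h2 : AnalyticAt ℂ (fun x => (x, cj w)) x := by fun_prop
  have h3 : AnalyticAt ℂ (fun x => P (x, cj w)) x :=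
    AnalyticAt.fun_comp (g := P) (f := fun x => (x, cj w)) h1 h2
  apply h3.congr
  filter_upwards [Metric.isOpen_ball.mem_nhds hx] with y hy
  exact (pol_loc (by omega) hp hK hL hy hw).symm

lemma analytic_family (hp : HasReps k p) (hK : IsPol k p K) {q : Fin (m + 2) → ℂ} {R : ℝ}
    {P : (Fin (m + 2) → ℂ) × (Fin (m + 2) → ℂ) → ℂ} (hL : LocData p q R P) {N : ℕ}
    {w : Fin N → (Fin (m + 2) → ℂ)} (hw : ∀ j, w j ∈ Metric.ball q R)
    (φ : (Fin N → ℂ) →ₗ[ℂ] ℂ) {x : Fin (m + 2) → ℂ}
    (hx : x ∈ Metric.ball q R) : AnalyticAt ℂ (fun x => φ (fun j => K x (w j))) x := by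
  have e : (fun x => φ (fun j => K x (w j))) = fun x => ∑ j, φ (Pi.single j 1) * K x (w j) := by
    funext x
    rw [functional_eq]
  rw [e]
  apply Finset.analyticAt_fun_sum
  intro j _
  exact analyticAt_const.fun_mul (analytic_left hp hK hL (hw j) hx)

/-- the sequence of functionals used -/
noncomputable def sf (j : ℕ) : (Fin (m + 2) → ℂ) →L[ℂ] ℂ := (lf (1 / ((j : ℂ) + 1))).toContinuousLinearMap

lemma sf_apply (j : ℕ) (x : Fin (m + 2) → ℂ) : sf j x = x 0 + (1 / ((j : ℂ) + 1)) * x 1 := by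
  simp only [sf, LinearMap.coe_toContinuousLinearMap', lf_apply]

lemma sf_indep (i j : ℕ) (hij : i ≠ j) : ∃ v : Fin (m + 2) → ℂ, sf i v = 0 ∧ sf j v = 1 := by
  have hi : ((i : ℂ) + 1) ≠ 0 := Nat.cast_add_one_ne_zero i
  have hj : ((j : ℂ) + 1) ≠ 0 := Nat.cast_add_one_ne_zero j
  have hij' : ((i : ℂ) - j) ≠ 0 := by
    rw [sub_ne_zero]
    exact_mod_cast hij
  set b : ℂ := ((i : ℂ) + 1) * (j + 1) / (i - j) with hb
  refine ⟨fun s => if s = 0 then - (1 / ((i : ℂ) + 1)) * b else if s = 1 then b else 0, ?_, ?_⟩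
  · rw [sf_apply]
    simp
  · rw [sf_apply]
    simp only [if_true, if_false, one_ne_zero]
    rw [hb]
    field_simp
    ring

lemma norm_le_one (j : ℕ) : ‖(1 / ((j : ℂ) + 1))‖ ≤ 1 := by
  rw [norm_div, norm_one]
  have : ‖((j : ℂ) + 1)‖ = (j : ℝ) + 1 := by
    have := Complex.norm_natCast (j + 1)
    push_cast at this
    exact this
  rw [this, div_le_one (by positivity)]
  linarith [Nat.cast_nonneg (α := ℝ) j]

/-- stage one -/
lemma stage_one (hp : HasReps k p) (hK : IsPol k p K) {q : Fin (m + 2) → ℂ} {ρ R : ℝ}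
    {P : (Fin (m + 2) → ℂ) × (Fin (m + 2) → ℂ) → ℂ} (hL : LocData p q R P) (h3 : 3 * ρ ≤ R)
    (n : ℕ) (c' : ℂ) {N : ℕ} (w : Fin N → (Fin (m + 2) → ℂ)) (hw : ∀ j, w j ∈ Metric.ball q ρ)
    (hwc : ∀ j, sf n (w j) = c') :
    finrank ℂ (Submodule.span ℂ ((fun x => (fun j => K x (w j))) '' (Metric.ball q ρ))) ≤ T k := by
  by_cases hρ : 0 < ρ
  swap
  · have : Metric.ball q ρ = ∅ := Metric.ball_eq_empty.2 (by linarith)
    rw [this, Set.image_empty, Submodule.span_empty, finrank_bot]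
    exact Nat.zero_le _
  have hρR : ρ ≤ R := by linarith
  apply one_sided Metric.isOpen_ball (convex_ball q ρ) sf sf_indep k 0
  · intro φ x hx
    exact analytic_family hp hK hL (fun j => Metric.ball_subset_ball hρR (hw j)) φ
      (Metric.ball_subset_ball hρR hx)
  · intro n' _ c
    by_contra hcon
    push Not at hcon
    obtain ⟨y, hy, A, hdet⟩ := exists_det_ne_zero _ k hcon
    choose x hx hxy using hy
    apply hdet
    rw [← cross_zero hp hK hL h3 (norm_le_one n') (norm_le_one n) (ι := Fin (k + 1)) (by simp)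
      x (fun i => (hx i).1) (c := c) (fun i => by
        have := (hx i).2
        rwa [sf_apply] at this) w hw (c' := c') (fun j => by
        have := hwc j
        rwa [sf_apply] at this) (fun l j => A (Pi.single j 1) l)]
    congr 1
    ext i l
    simp only [Matrix.of_apply]
    rw [← hxy i]
    exact functional_eq ((LinearMap.proj l).comp A) _

/-- stage two: the finite rank statement -/
lemma stage_two (hp : HasReps k p) (hK : IsPol k p K) {q : Fin (m + 2) → ℂ} {ρ R : ℝ}
    {P : (Fin (m + 2) → ℂ) × (Fin (m + 2) → ℂ) → ℂ} (hL : LocData p q R P) (h3 : 3 * ρ ≤ R)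
    {N : ℕ} (w : Fin N → (Fin (m + 2) → ℂ)) (hw : ∀ j, w j ∈ Metric.ball q ρ) :
    finrank ℂ (Submodule.span ℂ ((fun x => (fun j => K x (w j))) '' (Metric.ball q ρ))) ≤ T (T k) := by
  by_cases hρ : 0 < ρ
  swap
  · have : Metric.ball q ρ = ∅ := Metric.ball_eq_empty.2 (by linarith)
    rw [this, Set.image_empty, Submodule.span_empty, finrank_bot]
    exact Nat.zero_le _
  have hρR : ρ ≤ R := by linarith
  apply one_sided Metric.isOpen_ball (convex_ball q ρ) sf sf_indep (T k) 0
  · intro φ x hx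
    exact analytic_family hp hK hL (fun j => Metric.ball_subset_ball hρR (hw j)) φ
      (Metric.ball_subset_ball hρR hx)
  · intro n' _ c
    by_contra hcon
    push Not at hcon
    obtain ⟨y, hy, A, hdet⟩ := exists_det_ne_zero _ (T k) hcon
    choose x hx hxy using hy
    apply hdet
    -- now use stage one with the points x
    have h1 := stage_one hp hK hL h3 n' c x (fun i => (hx i).1) (fun i => (hx i).2)
    set V : (Fin (m + 2) → ℂ) → (Fin (T k + 1) → ℂ) := fun z => (fun i => K z (x i)) with hV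
    set S := Submodule.span ℂ (V '' (Metric.ball q ρ)) with hS
    set y' : Fin (T k + 1) → (Fin (T k + 1) → ℂ) := fun l => ∑ j, conj (A (Pi.single j 1) l) • V (w j) with hy'
    have h2 : ∀ l, y' l ∈ S := by
      intro l
      apply Submodule.sum_mem
      intro j _
      apply Submodule.smul_mem
      apply Submodule.subset_span
      exact ⟨w j, hw j, rfl⟩
    have h4 := det_eq_zero_of_finrank_le (F := Fin (T k + 1) → ℂ) (S : Set (Fin (T k + 1) → ℂ)) (T k)
      (by rw [Submodule.span_eq]; exact h1) (ι := Fin (T k + 1)) (by simp) y' h2 LinearMap.id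
    have h5 : (Matrix.of fun i l => A (y i) l) =
        ((starRingEnd ℂ).mapMatrix (Matrix.of fun i l => (LinearMap.id (R := ℂ) (y' i)) l)).transpose := by
      ext i l
      simp only [Matrix.of_apply, Matrix.transpose_apply, RingHom.mapMatrix_apply, Matrix.map_apply,
        LinearMap.id_apply]
      rw [← hxy i]
      have h6 := functional_eq ((LinearMap.proj l).comp A) (fun j => K (x i) (w j))
      have h7 : A (fun j => K (x i) (w j)) l = ∑ j, A (Pi.single j 1) l * K (x i) (w j) := h6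
      rw [h7]
      simp only [hy', Finset.sum_apply, Pi.smul_apply, smul_eq_mul, map_sum, map_mul,
        Complex.conj_conj, hV]
      apply Finset.sum_congr rfl
      intro j _
      rw [pol_conj (by omega) hp hK (w j) (x i)]
    rw [h5, Matrix.det_transpose, ← RingHom.map_det, h4, map_zero]

theorem local_rank (hp : HasReps k p) (hK : IsPol k p K) {q : Fin (m + 2) → ℂ} {ρ R : ℝ}
    {P : (Fin (m + 2) → ℂ) × (Fin (m + 2) → ℂ) → ℂ} (hL : LocData p q R P) (h3 : 3 * ρ ≤ R)
    {N : ℕ} (hN : T (T k) < N) (x w : Fin N → (Fin (m + 2) → ℂ)) (hx : ∀ j, x j ∈ Metric.ball q ρ)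
    (hw : ∀ j, w j ∈ Metric.ball q ρ) :
    (Matrix.of fun i j => K (x i) (w j)).det = 0 := by
  have h1 := stage_two hp hK hL h3 w hw
  have h2 := det_eq_zero_of_finrank_le _ _ h1 (ι := Fin N) (by simpa using hN)
    (fun i => (fun j => K (x i) (w j))) (fun i => ⟨x i, hx i, rfl⟩) LinearMap.id
  exact h2

end Pool.Agent.H47.HR
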