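import Pool.Agent.H47.HR8

set_option autoImplicit false

namespace Pool.Agent.H47.HR

open Filter Topology Module
open scoped ComplexConjugate

variable {m k : ℕ} {p : (Fin (m + 2) → ℂ) → ℝ} {K : (Fin (m + 2) → ℂ) → (Fin (m + 2) → ℂ) → ℂ}

/-- the finite rank formula -/
theorem rank_formula (hp : HasReps k p) (hK : IsPol k p K) {q : Fin (m + 2) → ℂ} {ρ R : ℝ}
    {P : (Fin (m + 2) → ℂ) × (Fin (m + 2) → ℂ) → ℂ} (hL : LocData p q R P) (h3 : 3 * ρ ≤ R)
    {U : Set (Fin (m + 2) → ℂ)} (hU : IsOpen U) (hUB : U ⊆ Metric.ball q ρ) (hne : U.Nonempty) :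
    ∃ (s : ℕ) (x w : Fin s → (Fin (m + 2) → ℂ)) (N : Fin s → Fin s → ℂ), s ≤ T (T k) ∧
      (∀ i, x i ∈ Metric.ball q ρ) ∧ (∀ j, w j ∈ U) ∧
      ∀ z ∈ Metric.ball q ρ, ∀ b ∈ Metric.ball q ρ,
        K z b = ∑ i, ∑ j, K z (w j) * N j i * K (x i) b := by
  obtain ⟨u0, hu0⟩ := hne
  have hρ : 0 < ρ := lt_of_le_of_lt (norm_nonneg _) (mem_ball_iff_norm.1 (hUB hu0))
  have hρR : ρ ≤ R := by linarith
  set S : ℕ → Prop := fun s => ∃ x w : Fin s → (Fin (m + 2) → ℂ), (∀ i, x i ∈ Metric.ball q ρ) ∧
    (∀ j, w j ∈ U) ∧ (Matrix.of fun i j => K (x i) (w j)).det ≠ 0 with hS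
  have hS0 : S 0 := ⟨Fin.elim0, Fin.elim0, fun i => i.elim0, fun i => i.elim0, by simp⟩
  have hSb : ∀ s, S s → s ≤ T (T k) := by
    rintro s ⟨x, w, hx, hw, hdet⟩
    by_contra hcon
    push Not at hcon
    exact hdet (local_rank hp hK hL h3 hcon x w hx (fun j => hUB (hw j)))
  obtain ⟨s, hs, hs1⟩ : ∃ s, S s ∧ ¬ S (s + 1) := by
    by_contra hcon
    push Not at hcon
    have hall : ∀ s, S s := by
      intro s
      induction s with
      | zero => exact hS0
      | succ s ih => exact hcon s ih
    have := hSb _ (hall (T (T k) + 1))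
    omega
  have hsb := hSb s hs
  obtain ⟨x, w, hx, hw, hdet⟩ := hs
  set M : Matrix (Fin s) (Fin s) ℂ := Matrix.of fun i j => K (x i) (w j) with hM
  have hMu : IsUnit M.det := isUnit_iff_ne_zero.2 hdet
  refine ⟨s, x, w, fun j i => M⁻¹ j i, hsb, hx, hw, ?_⟩
  have step1 : ∀ z ∈ Metric.ball q ρ, ∀ b ∈ U, K z b = ∑ i, ∑ j, K z (w j) * M⁻¹ j i * K (x i) b := by
    intro z hz b hb
    let x' : Fin (s + 1) → (Fin (m + 2) → ℂ) := Fin.append x (fun _ : Fin 1 => z)
    let w' : Fin (s + 1) → (Fin (m + 2) → ℂ) := Fin.append w (fun _ : Fin 1 => b)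
    have h1 : (Matrix.of fun i j => K (x' i) (w' j)).det = 0 := by
      by_contra hcon
      apply hs1
      refine ⟨x', w', ?_, ?_, hcon⟩
      · intro i
        refine Fin.addCases (fun i => ?_) (fun i => ?_) i
        · simp only [x', Fin.append_left]; exact hx i
        · simp only [x', Fin.append_right]; exact hz
      · intro i
        refine Fin.addCases (fun i => ?_) (fun i => ?_) i
        · simp only [w', Fin.append_left]; exact hw i
        · simp only [w', Fin.append_right]; exact hb
    have h2 := Matrix.det_submatrix_equiv_self (finSumFinEquiv (m := s) (n := 1))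
      (Matrix.of fun i j => K (x' i) (w' j))
    rw [h1] at h2
    have h4 : (Matrix.of fun i j => K (x' i) (w' j)).submatrix (finSumFinEquiv (m := s) (n := 1))
        (finSumFinEquiv (m := s) (n := 1)) =
        Matrix.fromBlocks M (Matrix.of fun i (_ : Fin 1) => K (x i) b)
          (Matrix.of fun (_ : Fin 1) j => K z (w j)) (Matrix.of fun (_ : Fin 1) (_ : Fin 1) => K z b) := by
      ext i j
      rcases i with i | i <;> rcases j with j | j
      · simp [x', w', hM, Fin.append_left]
      · simp [x', w', Fin.append_left, Fin.append_right]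
      · simp [x', w', Fin.append_left, Fin.append_right]
      · simp [x', w', Fin.append_right]
    rw [h4] at h2
    let _ : Invertible M := Matrix.invertibleOfIsUnitDet M hMu
    rw [Matrix.det_fromBlocks₁₁] at h2
    have h5 := (mul_eq_zero.1 h2).resolve_left hdet
    rw [Matrix.det_fin_one] at h5
    simp only [Matrix.sub_apply, Matrix.mul_apply, Matrix.of_apply, Matrix.invOf_eq_nonsing_inv] at h5
    rw [sub_eq_zero] at h5
    rw [h5]
    apply Finset.sum_congr rfl
    intro i _
    rw [Finset.sum_mul]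
  intro z hz b hb
  -- continuation in `b`
  have han : AnalyticOnNhd ℂ (fun b => K b z - ∑ i, ∑ j, conj (K z (w j) * M⁻¹ j i) * K b (x i))
      (Metric.ball q ρ) := by
    intro b hb
    apply AnalyticAt.sub
    · exact analytic_left hp hK hL (Metric.ball_subset_ball hρR hz) (Metric.ball_subset_ball hρR hb)
    · apply Finset.analyticAt_fun_sum
      intro i _
      apply Finset.analyticAt_fun_sum
      intro j _
      apply AnalyticAt.fun_mul analyticAt_const
      exact analytic_left hp hK hL (Metric.ball_subset_ball hρR (hx i)) (Metric.ball_subset_ball hρR hb)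
  have hzero := han.eqOn_zero_of_preconnected_of_eventuallyEq_zero (convex_ball q ρ).isPreconnected
    (hUB hu0) (by
      filter_upwards [hU.mem_nhds hu0] with b' hb'
      have := step1 z hz b' hb'
      have h6 : K b' z = conj (K z b') := pol_conj (by omega) hp hK z b'
      rw [h6, this]
      simp only [map_sum, map_mul, Pi.zero_apply]
      rw [sub_eq_zero]
      apply Finset.sum_congr rfl
      intro i _
      apply Finset.sum_congr rfl
      intro j _
      rw [pol_conj (by omega) hp hK (x i) b'])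
  have h7 := hzero hb
  simp only [Pi.zero_apply] at h7
  rw [sub_eq_zero] at h7
  have h8 : K z b = conj (K b z) := pol_conj (by omega) hp hK b z
  rw [h8, h7]
  simp only [map_sum, map_mul, Complex.conj_conj]
  apply Finset.sum_congr rfl
  intro i _
  apply Finset.sum_congr rfl
  intro j _
  rw [pol_conj (by omega) hp hK b (x i)]

/-- the local span property -/
def Loc (K : (Fin (m + 2) → ℂ) → (Fin (m + 2) → ℂ) → ℂ) (F : (Fin (m + 2) → ℂ) → ℂ)
    (z : Fin (m + 2) → ℂ) : Prop :=
  ∀ U ∈ 𝓝 z, ∃ (s : ℕ) (w : Fin s → (Fin (m + 2) → ℂ)) (a : Fin s → ℂ),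
    (∀ j, w j ∈ U) ∧ ∀ᶠ x in 𝓝 z, F x = ∑ j, a j * K x (w j)

lemma transfer (hp : HasReps k p) (hK : IsPol k p K) {q : Fin (m + 2) → ℂ} {ρ R : ℝ}
    {P : (Fin (m + 2) → ℂ) × (Fin (m + 2) → ℂ) → ℂ} (hL : LocData p q R P) (h3 : 3 * ρ ≤ R)
    {F : (Fin (m + 2) → ℂ) → ℂ} {z : Fin (m + 2) → ℂ} (hz : z ∈ Metric.ball q ρ) {s : ℕ}
    {w : Fin s → (Fin (m + 2) → ℂ)} {a : Fin s → ℂ} (hw : ∀ j, w j ∈ Metric.ball q ρ)
    (hF : ∀ᶠ x in 𝓝 z, F x = ∑ j, a j * K x (w j)) : Loc K F z := by
  intro U hU
  obtain ⟨V, hVU, hVo, hzV⟩ := mem_nhds_iff.1 hU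
  obtain ⟨s', x', w', N, -, hx', hw', hform⟩ := rank_formula hp hK hL h3
    (U := V ∩ Metric.ball q ρ) (hVo.inter Metric.isOpen_ball) Set.inter_subset_right ⟨z, hzV, hz⟩
  refine ⟨s', w', fun j => ∑ l, ∑ i, a l * (N j i * K (x' i) (w l)), fun j => hVU (hw' j).1, ?_⟩
  filter_upwards [hF, Metric.isOpen_ball.mem_nhds hz] with x hx hxB
  rw [hx]
  have e1 : ∀ l, K x (w l) = ∑ i, ∑ j, K x (w' j) * N j i * K (x' i) (w l) :=
    fun l => hform x hxB _ (hw l)
  calc ∑ l, a l * K x (w l) = ∑ l, ∑ i, ∑ j, a l * (K x (w' j) * N j i * K (x' i) (w l)) := by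
        apply Finset.sum_congr rfl
        intro l _
        conv_lhs => rw [e1 l]
        simp_rw [Finset.mul_sum]
    _ = ∑ l, ∑ j, ∑ i, a l * (K x (w' j) * N j i * K (x' i) (w l)) := by
        apply Finset.sum_congr rfl
        intro l _
        rw [Finset.sum_comm]
    _ = ∑ j, ∑ l, ∑ i, a l * (K x (w' j) * N j i * K (x' i) (w l)) := by
        rw [Finset.sum_comm]
    _ = ∑ j, (∑ l, ∑ i, a l * (N j i * K (x' i) (w l))) * K x (w' j) := by
        apply Finset.sum_congr rfl
        intro j _
        simp_rw [Finset.sum_mul]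
        apply Finset.sum_congr rfl
        intro l _
        apply Finset.sum_congr rfl
        intro i _
        ring

/-- everything is locally in the span, hence analytic -/
theorem entire (hn : ∀ z, AnalyticAt ℝ p z) (hp : HasReps k p) (hK : IsPol k p K)
    (y z : Fin (m + 2) → ℂ) : AnalyticAt ℂ (fun x => K x y) z := by
  choose R P hL using fun q => exists_locData p q (hn q)
  set ρ : (Fin (m + 2) → ℂ) → ℝ := fun q => R q / 3 with hρ
  have hρpos : ∀ q, 0 < ρ q := fun q => by have := (hL q).pos; simp only [hρ]; linarith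
  have h3 : ∀ q, 3 * ρ q ≤ R q := fun q => by simp only [hρ]; linarith
  have hρR : ∀ q, ρ q ≤ R q := fun q => by have := hρpos q; have := h3 q; linarith
  set F : (Fin (m + 2) → ℂ) → ℂ := fun x => K x y with hF
  -- base point
  have hy : Loc K F y := by
    apply transfer hp hK (hL y) (h3 y) (Metric.mem_ball_self (hρpos y)) (s := 1) (w := fun _ => y)
      (a := fun _ => 1) (fun _ => Metric.mem_ball_self (hρpos y))
    exact Eventually.of_forall fun x => by simp [hF]
  -- openness
  have hopen : IsOpen {z | Loc K F z} := by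
    rw [isOpen_iff_mem_nhds]
    intro z hz
    obtain ⟨s, w, a, hw, hev⟩ := hz (Metric.ball z (ρ z)) (Metric.ball_mem_nhds _ (hρpos z))
    filter_upwards [hev.eventually_nhds, Metric.ball_mem_nhds z (hρpos z)] with z' h1 h2
    exact transfer hp hK (hL z) (h3 z) h2 hw h1
  -- the path
  set v : Fin (m + 2) → ℂ := z - y with hv
  have hcont : Continuous (fun τ : ℝ => y + (τ : ℂ) • v) := by
    exact continuous_const.add (Complex.continuous_ofReal.smul continuous_const)
  have hclopen : IsClopen {τ : ℝ | Loc K F (y + (τ : ℂ) • v)} := by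
    constructor
    · rw [← closure_subset_iff_isClosed]
      intro τ hτ
      by_cases hτ0 : τ = 0
      · simp only [Set.mem_ofPred_eq, hτ0, Complex.ofReal_zero, zero_smul, add_zero]
        exact hy
      set q := y + (τ : ℂ) • v with hq
      -- a nearby good parameter
      have hnb : {σ : ℝ | y + (σ : ℂ) • v ∈ Metric.ball q (ρ q)} ∈ 𝓝 τ :=
        hcont.continuousAt.preimage_mem_nhds (Metric.ball_mem_nhds _ (hρpos q))
      obtain ⟨σ, hσ1, hσ2⟩ := mem_closure_iff_nhds.1 hτ _ hnb
      obtain ⟨s, w, a, hw, hev⟩ := hσ2 (Metric.ball q (ρ q)) (Metric.isOpen_ball.mem_nhds hσ1)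
      obtain ⟨O, hO, hOo, hOm⟩ := eventually_nhds_iff.1 (hev.and (Metric.isOpen_ball.mem_nhds hσ1))
      have hclaim : ∀ᶠ x in 𝓝 q, F x = ∑ j, a j * K x (w j) := by
        have hc0 : Continuous (fun x : Fin (m + 2) → ℂ => y + ((σ / τ : ℝ) : ℂ) • (x - y)) := by
          have h0 : Continuous (fun x : Fin (m + 2) → ℂ => x - y) := continuous_id.sub continuous_const
          exact continuous_const.fun_add (h0.fun_const_smul _)
        have he : y + ((σ / τ : ℝ) : ℂ) • (q - y) = y + (σ : ℂ) • v := by
          rw [hq]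
          have : (τ : ℂ) ≠ 0 := by exact_mod_cast hτ0
          ext i
          simp only [Pi.add_apply, Pi.smul_apply, Pi.sub_apply, smul_eq_mul]
          push_cast
          field_simp
          ring
        have h1 : ∀ᶠ x in 𝓝 q, y + ((σ / τ : ℝ) : ℂ) • (x - y) ∈ O := by
          apply hc0.continuousAt.eventually_mem
          rw [he]
          exact hOo.mem_nhds hOm
        filter_upwards [h1, Metric.ball_mem_nhds q (hρpos q)] with x hx1 hx2
        set Ω : Set ℂ := {t | y + t • (x - y) ∈ Metric.ball q (ρ q)} with hΩ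
        have hΩc : Convex ℝ Ω := by
          intro s hs t ht a b ha hb hab
          have hb' : (b : ℝ) = 1 - a := by linarith
          subst hb'
          have h1 := (convex_ball q (ρ q)) hs ht ha hb hab
          have h2 : y + (a • s + (1 - a) • t) • (x - y) =
              a • (y + s • (x - y)) + (1 - a) • (y + t • (x - y)) := by
            ext j
            simp
            ring
          simp only [hΩ, Set.mem_ofPred_eq]
          rw [h2]
          exact h1
        have hcl : Continuous (fun t : ℂ => y + t • (x - y)) := by fun_prop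
        have han : AnalyticOnNhd ℂ (fun t : ℂ => K (y + t • (x - y)) y -
            ∑ j, a j * K (y + t • (x - y)) (w j)) Ω := by
          intro t ht
          apply AnalyticAt.sub
          · exact pol_line (by omega) hp hK y (x - y) t
          · apply Finset.analyticAt_fun_sum
            intro j _
            apply AnalyticAt.fun_mul analyticAt_const
            have h5 := analytic_left hp hK (hL q) (Metric.ball_subset_ball (hρR q) (hw j))
              (Metric.ball_subset_ball (hρR q) ht)
            have h6 : AnalyticAt ℂ (fun t : ℂ => y + t • (x - y)) t := by fun_prop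
            exact AnalyticAt.fun_comp (g := fun x => K x (w j)) (f := fun t : ℂ => y + t • (x - y)) h5 h6
        have ht0 : (((σ / τ : ℝ) : ℂ)) ∈ Ω := (hO _ hx1).2
        have ht1 : (1 : ℂ) ∈ Ω := by
          simp only [hΩ, Set.mem_ofPred_eq, one_smul, add_sub_cancel]
          exact hx2
        have hfin := oneD hΩc han ht0 (by
          apply Eventually.frequently
          apply Eventually.filter_mono nhdsWithin_le_nhds
          have h7 : ∀ᶠ t : ℂ in 𝓝 (((σ / τ : ℝ) : ℂ)), y + t • (x - y) ∈ O :=
            hcl.continuousAt.eventually_mem (hOo.mem_nhds hx1)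
          filter_upwards [h7] with t ht
          have := (hO _ ht).1
          simp only [hF] at this
          rw [this, sub_self]) ht1
        simp only [one_smul, add_sub_cancel] at hfin
        exact sub_eq_zero.1 hfin
      exact transfer hp hK (hL q) (h3 q) (Metric.mem_ball_self (hρpos q)) hw hclaim
    · exact hopen.preimage hcont
  have huniv := hclopen.eq_univ ⟨0, by simpa using hy⟩
  have h1 : (1 : ℝ) ∈ {τ : ℝ | Loc K F (y + (τ : ℂ) • v)} := by rw [huniv]; trivial
  have h2 : Loc K F z := by
    simpa [hv] using h1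
  obtain ⟨s, w, a, hw, hev⟩ := h2 (Metric.ball z (ρ z)) (Metric.ball_mem_nhds _ (hρpos z))
  have han : AnalyticAt ℂ (fun x => ∑ j, a j * K x (w j)) z := by
    apply Finset.analyticAt_fun_sum
    intro j _
    apply AnalyticAt.fun_mul analyticAt_const
    exact analytic_left hp hK (hL z) (Metric.ball_subset_ball (hρR z) (hw j))
      (Metric.mem_ball_self (hL z).pos)
  exact han.congr (hev.mono fun x hx => hx.symm)

end Pool.Agent.H47.HR
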