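import Mathlib
import Pool.Agent.H47.HR9

set_option autoImplicit false

namespace Pool.Agent.H47.HRC

open Pool.Agent.H47.HR Filter Topology
open scoped ComplexConjugate

/-- a real-analyticity helper -/
lemma analytic_normSq {n : ℕ} {f : (Fin n → ℂ) → ℂ} {z : Fin n → ℂ} (hf : AnalyticAt ℂ f z) :
    AnalyticAt ℝ (fun x => Complex.normSq (f x)) z := by
  have h1 : AnalyticAt ℝ f z := hf.restrictScalars
  have h2 : AnalyticAt ℝ (fun x => (f x).re) z :=
    AnalyticAt.fun_comp (g := fun w : ℂ => w.re) (f := f) (Complex.reCLM.analyticAt _) h1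
  have h3 : AnalyticAt ℝ (fun x => (f x).im) z :=
    AnalyticAt.fun_comp (g := fun w : ℂ => w.im) (f := f) (Complex.imCLM.analyticAt _) h1
  have e : (fun x => Complex.normSq (f x)) = fun x => (f x).re * (f x).re + (f x).im * (f x).im := by
    funext x
    rw [Complex.normSq_apply]
  rw [e]
  exact (h2.fun_mul h2).fun_add (h3.fun_mul h3)

lemma re_mul_conj (a b : ℂ) : (a * conj b).re =
    Complex.normSq ((1 / 2 : ℂ) * (a + b)) - Complex.normSq ((1 / 2 : ℂ) * (a - b)) := by
  simp only [Complex.normSq_apply, Complex.mul_re, Complex.mul_im, Complex.conj_re, Complex.conj_im,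
    Complex.add_re, Complex.add_im, Complex.sub_re, Complex.sub_im]
  norm_num
  ring

/-- explicit form: the constant is T(T k) + T(T k) -/
theorem explicit (n : ℕ) (hn : 2 ≤ n) (k : ℕ) (p : (Fin n → ℂ) → ℝ)
      (hpan : AnalyticOnNhd ℝ p Set.univ)
      (hyp : ∀ (a : Fin n → ℂ) (L : (Fin (n - 1) → ℂ) →ₗ[ℂ] (Fin n → ℂ)),
        Function.Injective L →
        ∃ (ε : Fin k → ℝ) (g : Fin k → (Fin (n - 1) → ℂ) → ℂ),
          (∀ j, ε j = 1 ∨ ε j = -1) ∧ (∀ j, Differentiable ℂ (g j)) ∧
          ∀ x, p (a + L x) = ∑ j, ε j * Complex.normSq (g j x)) :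
      ∃ (ε : Fin (T (T k) + T (T k)) → ℝ) (f : Fin (T (T k) + T (T k)) → (Fin n → ℂ) → ℂ),
        (∀ j, ε j = 1 ∨ ε j = -1) ∧ (∀ j, Differentiable ℂ (f j)) ∧
        ∀ z, p z = ∑ j, ε j * Complex.normSq (f j z) := by
  obtain ⟨m, rfl⟩ : ∃ m, n = m + 2 := ⟨n - 2, by omega⟩
  have hp : HasReps k p := hasReps_of_hyp hyp
  obtain ⟨K, hK⟩ := exists_pol hn hp
  obtain ⟨R, P, hL⟩ := exists_locData p 0 (hpan 0 (Set.mem_univ _))
  have hRpos := hL.pos
  have h3 : 3 * (R / 3) ≤ R := by linarith
  obtain ⟨s, x, w, N, hs, hx, hw, hform⟩ := rank_formula hp hK hL h3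
    (U := Metric.ball 0 (R / 3)) Metric.isOpen_ball subset_rfl ⟨0, Metric.mem_ball_self (by linarith)⟩
  have hent : ∀ y z, AnalyticAt ℂ (fun x => K x y) z :=
    fun y z => entire (fun z => hpan z (Set.mem_univ _)) hp hK y z
  -- the functions
  set G : Fin s → (Fin (m + 2) → ℂ) → ℂ := fun i z => ∑ j, K z (w j) * N j i with hG
  set H : Fin s → (Fin (m + 2) → ℂ) → ℂ := fun i z => K z (x i) with hH
  have hGan : ∀ i z, AnalyticAt ℂ (G i) z := by
    intro i z
    apply Finset.analyticAt_fun_sum
    intro j _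
    exact (hent (w j) z).fun_mul analyticAt_const
  have hHan : ∀ i z, AnalyticAt ℂ (H i) z := fun i z => hent (x i) z
  have hlocal : ∀ z ∈ Metric.ball (0 : Fin (m + 2) → ℂ) (R / 3), p z = ∑ i, (G i z * conj (H i z)).re := by
    intro z hz
    have h1 := hform z hz z hz
    have h2 := pol_diag hn hp hK z
    rw [h2] at h1
    have h4 := congrArg Complex.re h1
    rw [Complex.ofReal_re, Complex.re_sum] at h4
    rw [h4]
    apply Finset.sum_congr rfl
    intro i _
    simp only [hG, hH]
    rw [Finset.sum_mul]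
    congr 1
    apply Finset.sum_congr rfl
    intro j _
    rw [pol_conj hn hp hK z (x i)]
  -- padded functions
  set r : ℕ := T (T k) with hr
  set G' : ℕ → (Fin (m + 2) → ℂ) → ℂ := fun i => if h : i < s then G ⟨i, h⟩ else fun _ => 0 with hG'
  set H' : ℕ → (Fin (m + 2) → ℂ) → ℂ := fun i => if h : i < s then H ⟨i, h⟩ else fun _ => 0 with hH'
  have hG'an : ∀ i z, AnalyticAt ℂ (G' i) z := by
    intro i z
    by_cases h : i < s
    · simp only [hG', h, dif_pos]; exact hGan _ z
    · simp only [hG', h, dif_neg, not_false_eq_true]; exact analyticAt_const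
  have hH'an : ∀ i z, AnalyticAt ℂ (H' i) z := by
    intro i z
    by_cases h : i < s
    · simp only [hH', h, dif_pos]; exact hHan _ z
    · simp only [hH', h, dif_neg, not_false_eq_true]; exact analyticAt_const
  set A : Fin r → (Fin (m + 2) → ℂ) → ℂ := fun i z => (1 / 2 : ℂ) * (G' i z + H' i z) with hA
  set B : Fin r → (Fin (m + 2) → ℂ) → ℂ := fun i z => (1 / 2 : ℂ) * (G' i z - H' i z) with hB
  have hAan : ∀ i z, AnalyticAt ℂ (A i) z := fun i z =>
    analyticAt_const.fun_mul ((hG'an i z).fun_add (hH'an i z))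
  have hBan : ∀ i z, AnalyticAt ℂ (B i) z := fun i z =>
    analyticAt_const.fun_mul ((hG'an i z).fun_sub (hH'an i z))
  refine ⟨Fin.append (fun _ => 1) (fun _ => -1), Fin.append A B, ?_, ?_, ?_⟩
  · intro j
    refine Fin.addCases (fun i => ?_) (fun i => ?_) j
    · left; rw [Fin.append_left]
    · right; rw [Fin.append_right]
  · intro j
    refine Fin.addCases (fun i => ?_) (fun i => ?_) j
    · rw [Fin.append_left]; exact fun z => (hAan i z).differentiableAt
    · rw [Fin.append_right]; exact fun z => (hBan i z).differentiableAt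
  · -- the identity
    have hsum : ∀ z, ∑ j, (Fin.append (fun _ => (1 : ℝ)) (fun _ => -1) : Fin (r + r) → ℝ) j *
        Complex.normSq ((Fin.append A B : Fin (r + r) → (Fin (m + 2) → ℂ) → ℂ) j z) =
        ∑ i, Complex.normSq (A i z) - ∑ i, Complex.normSq (B i z) := by
      intro z
      rw [Fin.sum_univ_add]
      simp only [Fin.append_left, Fin.append_right]
      simp only [one_mul, neg_mul, Finset.sum_neg_distrib]
      ring
    have hsum2 : ∀ z, ∑ i, Complex.normSq (A i z) - ∑ i, Complex.normSq (B i z) =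
        ∑ i, (G i z * conj (H i z)).re := by
      intro z
      rw [← Finset.sum_sub_distrib]
      have e1 : ∀ i : Fin r, Complex.normSq (A i z) - Complex.normSq (B i z) =
          (fun j : ℕ => (G' j z * conj (H' j z)).re) i := by
        intro i
        simp only [hA, hB]
        rw [re_mul_conj]
      rw [Finset.sum_congr rfl (fun i _ => e1 i),
        Fin.sum_univ_eq_sum_range (fun j : ℕ => (G' j z * conj (H' j z)).re) r]
      have e2 : ∀ i : Fin s, (G i z * conj (H i z)).re = (fun j : ℕ => (G' j z * conj (H' j z)).re) i := by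
        intro i
        simp only [hG', hH', i.2, dif_pos]
      rw [Finset.sum_congr rfl (fun i _ => e2 i),
        Fin.sum_univ_eq_sum_range (fun j : ℕ => (G' j z * conj (H' j z)).re) s]
      symm
      apply Finset.sum_subset
      · intro i hi
        rw [Finset.mem_range] at *
        omega
      · intro i _ hi
        rw [Finset.mem_range] at hi
        simp only [hG', hH', hi, dif_neg, not_false_eq_true]
        simp
    have hfin : p = fun z => ∑ i, Complex.normSq (A i z) - ∑ i, Complex.normSq (B i z) := by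
      apply AnalyticOnNhd.eq_of_eventuallyEq hpan (g := fun z => ∑ i, Complex.normSq (A i z) -
        ∑ i, Complex.normSq (B i z)) (z₀ := 0)
      · intro z _
        apply AnalyticAt.fun_sub
        · apply Finset.analyticAt_fun_sum
          intro i _
          exact analytic_normSq (hAan i z)
        · apply Finset.analyticAt_fun_sum
          intro i _
          exact analytic_normSq (hBan i z)
      · filter_upwards [Metric.ball_mem_nhds (0 : Fin (m + 2) → ℂ) (by linarith : 0 < R / 3)] with z hz
        rw [hsum2, hlocal z hz]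
    intro z
    rw [hsum]
    exact congrFun hfin z

end Pool.Agent.H47.HRC
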