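import Mathlib

set_option autoImplicit false

/-!
A counterexample to positive association of a colour class in proper colourings of bipartite graphs.
-/

namespace Pool.Agent.H47.PosAssoc

open Finset

/-- number of maps from an `n`-set onto a `k`-set -/
def S : ℕ → ℕ → ℕ
  | 0, 0 => 1
  | 0, _ + 1 => 0
  | n + 1, k => k * (S n k + S n (k - 1))

lemma card_image {q : ℕ} (n : ℕ) (I : Finset (Fin q)) :
    #{u : Fin n → Fin q | univ.image u = I} = S n #I := by
  induction n generalizing I with
  | zero =>
    by_cases hI : I = ∅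
    · subst hI
      simp [S]
    · have h1 : 0 < #I := Finset.card_pos.2 (Finset.nonempty_iff_ne_empty.2 hI)
      obtain ⟨k, hk⟩ := Nat.exists_eq_succ_of_ne_zero h1.ne'
      rw [hk]
      simp only [S, card_eq_zero, filter_eq_empty_iff]
      intro u _ hu
      apply hI
      rw [← hu]
      simp
  | succ n ih =>
    have h1 : #{u : Fin (n + 1) → Fin q | univ.image u = I} =
        ∑ c : Fin q, #{v : Fin n → Fin q | insert c (univ.image v) = I} := by
      simp only [Finset.card_filter]
      rw [← (Fin.consEquiv (fun _ : Fin (n + 1) => Fin q)).sum_comp, Fintype.sum_prod_type]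
      refine Finset.sum_congr rfl fun c _ => Finset.sum_congr rfl fun v _ => ?_
      congr 1
      have : (univ.image ((Fin.consEquiv (fun _ : Fin (n + 1) => Fin q)) (c, v))) =
          insert c (univ.image v) := by
        ext d
        simp only [Fin.consEquiv, Equiv.coe_fn_mk, mem_image, mem_univ, true_and, mem_insert]
        rw [Fin.exists_fin_succ]
        simp only [Fin.cons_zero, Fin.cons_succ]
        constructor
        · rintro (h | h)
          · exact Or.inl h.symm
          · exact Or.inr h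
        · rintro (h | h)
          · exact Or.inl h.symm
          · exact Or.inr h
      rw [this]
    rw [h1]
    have h2 : ∀ c : Fin q, #{v : Fin n → Fin q | insert c (univ.image v) = I} =
        if c ∈ I then S n #I + S n (#I - 1) else 0 := by
      intro c
      by_cases hc : c ∈ I
      · rw [if_pos hc]
        have h3 : ({v : Fin n → Fin q | insert c (univ.image v) = I} : Finset (Fin n → Fin q)) =
            ({v : Fin n → Fin q | univ.image v = I} : Finset (Fin n → Fin q)) ∪
            ({v : Fin n → Fin q | univ.image v = I.erase c} : Finset (Fin n → Fin q)) := by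
          ext v
          simp only [mem_filter, mem_univ, true_and, mem_union]
          constructor
          · intro h
            by_cases hcv : c ∈ univ.image v
            · left
              rw [← h, insert_eq_of_mem hcv]
            · right
              rw [← h, erase_insert hcv]
          · rintro (h | h)
            · rw [h, insert_eq_of_mem hc]
            · rw [h, insert_erase hc]
        rw [h3, card_union_of_disjoint, ih, ih, card_erase_of_mem hc]
        rw [Finset.disjoint_left]
        intro v hv hv'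
        simp only [mem_filter, mem_univ, true_and] at hv hv'
        rw [hv] at hv'
        have := Finset.notMem_erase c I
        rw [← hv'] at this
        exact this hc
      · rw [if_neg hc, card_eq_zero, filter_eq_empty_iff]
        intro v _ h
        apply hc
        rw [← h]
        exact mem_insert_self _ _
    simp only [h2]
    rw [Finset.sum_ite_mem, univ_inter, sum_const, smul_eq_mul]
    simp only [S]

lemma sum_image {q : ℕ} (n : ℕ) (F : Finset (Fin q) → ℕ) :
    ∑ u : Fin n → Fin q, F (univ.image u) = ∑ I : Finset (Fin q), S n #I * F I := by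
  rw [← Finset.sum_fiberwise (s := univ) (g := fun u : Fin n → Fin q => univ.image u)]
  refine Finset.sum_congr rfl fun I _ => ?_
  rw [← card_image n I, ← smul_eq_mul, ← sum_const]
  refine Finset.sum_congr rfl fun u hu => ?_
  simp only [mem_filter, mem_univ, true_and] at hu
  rw [hu]

/-- the vertices outside the colour class side, and on it -/
abbrev VB (M e : ℕ) := Fin M ⊕ Fin e
abbrev VA (a e n : ℕ) := Fin a ⊕ (Fin e ⊕ Fin n)

/-- adjacency between the two sides -/
def rel {M a e n : ℕ} : VB M e → VA a e n → Bool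
  | Sum.inl _, Sum.inl _ => true
  | Sum.inl _, Sum.inr (Sum.inl _) => true
  | Sum.inl _, Sum.inr (Sum.inr _) => false
  | Sum.inr _, Sum.inl _ => false
  | Sum.inr k, Sum.inr (Sum.inl k') => k = k'
  | Sum.inr _, Sum.inr (Sum.inr _) => true

/-- number of pairs of distinct colours, the first outside `H`, the second outside `I` -/
def P {q : ℕ} (H I : Finset (Fin q)) : ℕ :=
  ∑ c : Fin q, ∑ d : Fin q, if c ∉ H ∧ d ∉ I ∧ c ≠ d then 1 else 0

lemma ite_forall {ι : Type} [Fintype ι] (p : ι → Prop) [DecidablePred p] :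
    (if ∀ i, p i then 1 else 0 : ℕ) = ∏ i, if p i then 1 else 0 := by
  by_cases h : ∀ i, p i
  · simp [h]
  · rw [if_neg h]
    push Not at h
    obtain ⟨i, hi⟩ := h
    rw [Finset.prod_eq_zero (mem_univ i)]
    simp [hi]

lemma ite_and' (p r : Prop) [Decidable p] [Decidable r] :
    (if p ∧ r then 1 else 0 : ℕ) = (if p then 1 else 0) * (if r then 1 else 0) := by
  by_cases hp : p <;> by_cases hr : r <;> simp [hp, hr]

lemma sum_x {q a : ℕ} (α : Fin q → ℕ) (H : Finset (Fin q)) :
    ∑ x : Fin a → Fin q, (∏ j, if x j ∉ H then 1 else 0) * ∏ j, α (x j) =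
      (∑ c : Fin q, if c ∉ H then α c else 0) ^ a := by
  rw [Fintype.sum_pow]
  refine Finset.sum_congr rfl fun x _ => ?_
  rw [← Finset.prod_mul_distrib]
  refine Finset.prod_congr rfl fun j _ => ?_
  split_ifs <;> simp

lemma sum_wg {q e : ℕ} (H I : Finset (Fin q)) :
    ∑ g : Fin e → Fin q, ∑ w : Fin e → Fin q,
      (∏ k, if w k ∉ H ∧ g k ∉ I ∧ w k ≠ g k then 1 else 0) = P H I ^ e := by
  have h1 : P H I = ∑ cd : Fin q × Fin q, if cd.1 ∉ H ∧ cd.2 ∉ I ∧ cd.1 ≠ cd.2 then 1 else 0 := by
    rw [Fintype.sum_prod_type]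
    rfl
  rw [h1, Fintype.sum_pow, ← (Equiv.arrowProdEquivProdArrow (Fin e) (fun _ => Fin q) (fun _ => Fin q)).symm.sum_comp,
    Fintype.sum_prod_type, Finset.sum_comm]
  rfl

/-- the weighted number of proper colourings -/
theorem count {q M a e n : ℕ} (α : Fin q → ℕ) (β : (Fin n → Fin q) → ℕ) :
    (∑ f : VB M e ⊕ VA a e n → Fin q,
      (if ∀ b y, rel b y = true → f (Sum.inl b) ≠ f (Sum.inr y) then 1 else 0) *
        ((∏ j, α (f (Sum.inr (Sum.inl j)))) * β (fun l => f (Sum.inr (Sum.inr (Sum.inr l)))))) =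
    ∑ h : Fin M → Fin q, ∑ u : Fin n → Fin q, β u *
      ((∑ c : Fin q, if c ∉ univ.image h then α c else 0) ^ a * P (univ.image h) (univ.image u) ^ e) := by
  rw [← (Equiv.sumArrowEquivProdArrow (VB M e) (VA a e n) (Fin q)).symm.sum_comp, Fintype.sum_prod_type]
  rw [← (Equiv.sumArrowEquivProdArrow (Fin M) (Fin e) (Fin q)).symm.sum_comp, Fintype.sum_prod_type]
  refine Finset.sum_congr rfl fun h _ => ?_
  simp_rw [← (Equiv.sumArrowEquivProdArrow (Fin a) (Fin e ⊕ Fin n) (Fin q)).symm.sum_comp,
    Fintype.sum_prod_type]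
  simp_rw [← (Equiv.sumArrowEquivProdArrow (Fin e) (Fin n) (Fin q)).symm.sum_comp,
    Fintype.sum_prod_type]
  -- order of summation : g, x, w, u
  have key : ∀ (g : Fin e → Fin q) (x : Fin a → Fin q) (w : Fin e → Fin q) (u : Fin n → Fin q),
      (if ∀ (b : VB M e) (y : VA a e n), rel b y = true →
          ((Equiv.sumArrowEquivProdArrow (VB M e) (VA a e n) (Fin q)).symm
            ((Equiv.sumArrowEquivProdArrow (Fin M) (Fin e) (Fin q)).symm (h, g),
              (Equiv.sumArrowEquivProdArrow (Fin a) (Fin e ⊕ Fin n) (Fin q)).symm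
                (x, (Equiv.sumArrowEquivProdArrow (Fin e) (Fin n) (Fin q)).symm (w, u)))) (Sum.inl b) ≠
          ((Equiv.sumArrowEquivProdArrow (VB M e) (VA a e n) (Fin q)).symm
            ((Equiv.sumArrowEquivProdArrow (Fin M) (Fin e) (Fin q)).symm (h, g),
              (Equiv.sumArrowEquivProdArrow (Fin a) (Fin e ⊕ Fin n) (Fin q)).symm
                (x, (Equiv.sumArrowEquivProdArrow (Fin e) (Fin n) (Fin q)).symm (w, u)))) (Sum.inr y)
        then 1 else 0 : ℕ) =
      (∏ j, if x j ∉ univ.image h then 1 else 0) *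
        ∏ k, if w k ∉ univ.image h ∧ g k ∉ univ.image u ∧ w k ≠ g k then 1 else 0 := by
    intro g x w u
    rw [← ite_forall, ← ite_forall, ← ite_and']
    congr 1
    apply propext
    constructor
    · intro H
      refine ⟨fun j => ?_, fun k => ⟨?_, ?_, ?_⟩⟩
      · simp only [mem_image, mem_univ, true_and, not_exists]
        intro i
        exact H (Sum.inl i) (Sum.inl j) rfl
      · simp only [mem_image, mem_univ, true_and, not_exists]
        intro i
        exact H (Sum.inl i) (Sum.inr (Sum.inl k)) rfl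
      · simp only [mem_image, mem_univ, true_and, not_exists]
        intro l hl
        exact H (Sum.inr k) (Sum.inr (Sum.inr l)) rfl hl.symm
      · intro hwg
        exact H (Sum.inr k) (Sum.inr (Sum.inl k)) (by simp [rel]) hwg.symm
    · rintro ⟨H1, H2⟩ b y hby
      rcases b with i | k
      · rcases y with j | k' | l
        · have := H1 j
          simp only [mem_image, mem_univ, true_and, not_exists] at this
          exact this i
        · have := (H2 k').1
          simp only [mem_image, mem_univ, true_and, not_exists] at this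
          exact this i
        · simp [rel] at hby
      · rcases y with j | k' | l
        · simp [rel] at hby
        · have hk : k = k' := by simpa [rel] using hby
          subst hk
          exact fun hh => (H2 k).2.2 hh.symm
        · have := (H2 k).2.1
          simp only [mem_image, mem_univ, true_and, not_exists] at this
          exact fun hh => this l hh.symm
  have step : ∀ (g : Fin e → Fin q) (x : Fin a → Fin q) (w : Fin e → Fin q) (u : Fin n → Fin q),
      (if ∀ (b : VB M e) (y : VA a e n), rel b y = true →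
          ((Equiv.sumArrowEquivProdArrow (VB M e) (VA a e n) (Fin q)).symm
            ((Equiv.sumArrowEquivProdArrow (Fin M) (Fin e) (Fin q)).symm (h, g),
              (Equiv.sumArrowEquivProdArrow (Fin a) (Fin e ⊕ Fin n) (Fin q)).symm
                (x, (Equiv.sumArrowEquivProdArrow (Fin e) (Fin n) (Fin q)).symm (w, u)))) (Sum.inl b) ≠
          ((Equiv.sumArrowEquivProdArrow (VB M e) (VA a e n) (Fin q)).symm
            ((Equiv.sumArrowEquivProdArrow (Fin M) (Fin e) (Fin q)).symm (h, g),
              (Equiv.sumArrowEquivProdArrow (Fin a) (Fin e ⊕ Fin n) (Fin q)).symm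
                (x, (Equiv.sumArrowEquivProdArrow (Fin e) (Fin n) (Fin q)).symm (w, u)))) (Sum.inr y)
        then 1 else 0 : ℕ) *
      ((∏ j, α (((Equiv.sumArrowEquivProdArrow (VB M e) (VA a e n) (Fin q)).symm
            ((Equiv.sumArrowEquivProdArrow (Fin M) (Fin e) (Fin q)).symm (h, g),
              (Equiv.sumArrowEquivProdArrow (Fin a) (Fin e ⊕ Fin n) (Fin q)).symm
                (x, (Equiv.sumArrowEquivProdArrow (Fin e) (Fin n) (Fin q)).symm (w, u))))
                (Sum.inr (Sum.inl j)))) *
        β (fun l => ((Equiv.sumArrowEquivProdArrow (VB M e) (VA a e n) (Fin q)).symm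
            ((Equiv.sumArrowEquivProdArrow (Fin M) (Fin e) (Fin q)).symm (h, g),
              (Equiv.sumArrowEquivProdArrow (Fin a) (Fin e ⊕ Fin n) (Fin q)).symm
                (x, (Equiv.sumArrowEquivProdArrow (Fin e) (Fin n) (Fin q)).symm (w, u))))
                (Sum.inr (Sum.inr (Sum.inr l))))) =
      β u * (((∏ j, if x j ∉ univ.image h then 1 else 0) * ∏ j, α (x j)) *
        ∏ k, if w k ∉ univ.image h ∧ g k ∉ univ.image u ∧ w k ≠ g k then 1 else 0) := by
    intro g x w u
    rw [key]
    have e1 : (∏ j, α (((Equiv.sumArrowEquivProdArrow (VB M e) (VA a e n) (Fin q)).symm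
            ((Equiv.sumArrowEquivProdArrow (Fin M) (Fin e) (Fin q)).symm (h, g),
              (Equiv.sumArrowEquivProdArrow (Fin a) (Fin e ⊕ Fin n) (Fin q)).symm
                (x, (Equiv.sumArrowEquivProdArrow (Fin e) (Fin n) (Fin q)).symm (w, u))))
                (Sum.inr (Sum.inl j)))) = ∏ j, α (x j) := rfl
    have e2 : (fun l => ((Equiv.sumArrowEquivProdArrow (VB M e) (VA a e n) (Fin q)).symm
            ((Equiv.sumArrowEquivProdArrow (Fin M) (Fin e) (Fin q)).symm (h, g),
              (Equiv.sumArrowEquivProdArrow (Fin a) (Fin e ⊕ Fin n) (Fin q)).symm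
                (x, (Equiv.sumArrowEquivProdArrow (Fin e) (Fin n) (Fin q)).symm (w, u))))
                (Sum.inr (Sum.inr (Sum.inr l)))) = u := rfl
    rw [e1, e2]
    ring
  simp_rw [step]
  have h1 : ∀ u : Fin n → Fin q, β u *
      ((∑ c : Fin q, if c ∉ univ.image h then α c else 0) ^ a * P (univ.image h) (univ.image u) ^ e) =
      ∑ g : Fin e → Fin q, ∑ x : Fin a → Fin q, ∑ w : Fin e → Fin q,
        β u * (((∏ j, if x j ∉ univ.image h then 1 else 0) * ∏ j, α (x j)) *
        ∏ k, if w k ∉ univ.image h ∧ g k ∉ univ.image u ∧ w k ≠ g k then 1 else 0) := by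
    intro u
    rw [← sum_x, ← sum_wg, Finset.mul_sum, Finset.mul_sum]
    refine Finset.sum_congr rfl fun g _ => ?_
    rw [Finset.sum_mul, Finset.mul_sum]
    refine Finset.sum_congr rfl fun x _ => ?_
    rw [Finset.mul_sum, Finset.mul_sum]
  simp_rw [h1]
  symm
  rw [Finset.sum_comm]
  refine Finset.sum_congr rfl fun g _ => ?_
  rw [Finset.sum_comm]
  refine Finset.sum_congr rfl fun x _ => ?_
  rw [Finset.sum_comm]

/-- the four counts, as a finite sum over colour sets -/
lemma count_one {q M a e n : ℕ} (α : Fin q → ℕ) :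
    (∑ f : VB M e ⊕ VA a e n → Fin q,
      (if ∀ b y, rel b y = true → f (Sum.inl b) ≠ f (Sum.inr y) then 1 else 0) *
        ((∏ j, α (f (Sum.inr (Sum.inl j)))) * 1)) =
    ∑ H : Finset (Fin q), S M #H * ∑ I : Finset (Fin q), S n #I *
      ((∑ c : Fin q, if c ∉ H then α c else 0) ^ a * P H I ^ e) := by
  have h1 := count (q := q) (M := M) (a := a) (e := e) (n := n) α (fun _ => 1)
  rw [h1, ← sum_image M]
  refine Finset.sum_congr rfl fun h _ => ?_
  rw [← sum_image n]
  simp

lemma count_c {q M a e n : ℕ} [NeZero n] (α : Fin q → ℕ) (c0 : Fin q) :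
    (∑ f : VB M e ⊕ VA a e n → Fin q,
      (if ∀ b y, rel b y = true → f (Sum.inl b) ≠ f (Sum.inr y) then 1 else 0) *
        ((∏ j, α (f (Sum.inr (Sum.inl j)))) *
          if ∀ l, f (Sum.inr (Sum.inr (Sum.inr l))) = c0 then 1 else 0)) =
    ∑ H : Finset (Fin q), S M #H *
      ((∑ c : Fin q, if c ∉ H then α c else 0) ^ a * P H {c0} ^ e) := by
  have h1 := count (q := q) (M := M) (a := a) (e := e) (n := n) α
    (fun u => if ∀ l, u l = c0 then 1 else 0)
  rw [h1, ← sum_image M]
  refine Finset.sum_congr rfl fun h _ => ?_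
  rw [Finset.sum_eq_single (fun _ => c0)]
  · have : univ.image (fun _ : Fin n => c0) = {c0} := by
      ext d
      simp only [mem_image, mem_univ, true_and, mem_singleton]
      constructor
      · rintro ⟨_, h⟩; exact h.symm
      · intro h; exact ⟨0, h.symm⟩
    rw [this]
    simp
  · intro u _ hu
    rw [if_neg, zero_mul]
    intro h2
    apply hu
    funext l
    exact h2 l
  · simp


/-- the numbers for `q = 4`, `M = 8`, `a = 9`, `e = 14`, `n = 10` -/
lemma val_one : ∑ H : Finset (Fin 4), S 8 #H * ∑ I : Finset (Fin 4), S 10 #I *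
      ((∑ c : Fin 4, if c ∉ H then 1 else 0) ^ 9 * P H I ^ 14) = 1966512008190282204 := by
  decide +kernel

lemma val_x : ∑ H : Finset (Fin 4), S 8 #H * ∑ I : Finset (Fin 4), S 10 #I *
      ((∑ c : Fin 4, if c ∉ H then (if c = 0 then 1 else 0) else 0) ^ 9 * P H I ^ 14) = 301148523657291 := by
  decide +kernel

lemma val_y : ∑ H : Finset (Fin 4), S 8 #H *
      ((∑ c : Fin 4, if c ∉ H then 1 else 0) ^ 9 * P H {0} ^ 14) = 44076842560081149 := by
  decide +kernel

lemma val_xy : ∑ H : Finset (Fin 4), S 8 #H *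
      ((∑ c : Fin 4, if c ∉ H then (if c = 0 then 1 else 0) else 0) ^ 9 * P H {0} ^ 14) = 6713270213121 := by
  decide +kernel

/-- the graph -/
def Gr (M a e n : ℕ) : SimpleGraph (VB M e ⊕ VA a e n) where
  Adj v w := match v, w with
    | Sum.inl b, Sum.inr y => rel b y = true
    | Sum.inr y, Sum.inl b => rel b y = true
    | _, _ => False
  symm := ⟨fun v w h => by
    rcases v with b | y <;> rcases w with b' | y' <;> exact h⟩
  loopless := ⟨fun v h => by
    rcases v with b | y <;> exact h⟩

lemma proper_iff {q M a e n : ℕ} (f : VB M e ⊕ VA a e n → Fin q) :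
    (∀ v w, (Gr M a e n).Adj v w → f v ≠ f w) ↔
      ∀ b y, rel b y = true → f (Sum.inl b) ≠ f (Sum.inr y) := by
  constructor
  · intro h b y hby
    exact h _ _ (show (Gr M a e n).Adj (Sum.inl b) (Sum.inr y) from hby)
  · intro h v w hvw
    rcases v with b | y <;> rcases w with b' | y'
    · exact absurd hvw id
    · exact h _ _ hvw
    · exact (h _ _ hvw).symm
    · exact absurd hvw id

/-- the side `A` -/
def sideA (M a e n : ℕ) : Finset (VB M e ⊕ VA a e n) := univ.filter fun v => v.isRight = true

lemma bip {M a e n : ℕ} (v w : VB M e ⊕ VA a e n) (h : (Gr M a e n).Adj v w) :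
    v ∈ sideA M a e n ↔ w ∉ sideA M a e n := by
  rcases v with b | y <;> rcases w with b' | y'
  · exact absurd h id
  · simp [sideA]
  · simp [sideA]
  · exact absurd h id

/-- the first increasing event: all vertices of the first group are in the set -/
noncomputable def evX (M a e n : ℕ) (s : Finset (VB M e ⊕ VA a e n)) : ℝ :=
  if ∀ j, Sum.inr (Sum.inl j) ∈ s then 1 else 0

/-- the second increasing event: all vertices of the third group are in the set -/
noncomputable def evY (M a e n : ℕ) (s : Finset (VB M e ⊕ VA a e n)) : ℝ :=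
  if ∀ l, Sum.inr (Sum.inr (Sum.inr l)) ∈ s then 1 else 0

lemma evX_mono (M a e n : ℕ) : Monotone (evX M a e n) := by
  intro s t hst
  unfold evX
  by_cases h : ∀ j, (Sum.inr (Sum.inl j) : VB M e ⊕ VA a e n) ∈ s
  · rw [if_pos h, if_pos fun j => hst (h j)]
  · rw [if_neg h]
    split_ifs <;> norm_num

lemma evY_mono (M a e n : ℕ) : Monotone (evY M a e n) := by
  intro s t hst
  unfold evY
  by_cases h : ∀ l, (Sum.inr (Sum.inr (Sum.inr l)) : VB M e ⊕ VA a e n) ∈ s
  · rw [if_pos h, if_pos fun j => hst (h j)]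
  · rw [if_neg h]
    split_ifs <;> norm_num

lemma evX_eq {q M a e n : ℕ} (c : Fin q) (f : VB M e ⊕ VA a e n → Fin q) :
    evX M a e n ((sideA M a e n).filter fun v => f v = c) =
      ((∏ j, if f (Sum.inr (Sum.inl j)) = c then 1 else 0 : ℕ) : ℝ) := by
  rw [← ite_forall]
  unfold evX
  push_cast
  apply if_congr
  · simp [sideA]
  · rfl
  · rfl

lemma evY_eq {q M a e n : ℕ} (c : Fin q) (f : VB M e ⊕ VA a e n → Fin q) :
    evY M a e n ((sideA M a e n).filter fun v => f v = c) =
      ((if ∀ l, f (Sum.inr (Sum.inr (Sum.inr l))) = c then 1 else 0 : ℕ) : ℝ) := by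
  unfold evY
  push_cast
  apply if_congr
  · simp [sideA]
  · rfl
  · rfl

lemma sum_filter_eq {q M a e n : ℕ} [DecidableRel (Gr M a e n).Adj] (F : (VB M e ⊕ VA a e n → Fin q) → ℝ)
    (F' : (VB M e ⊕ VA a e n → Fin q) → ℕ) (hF : ∀ f, F f = F' f) :
    ∑ f ∈ (univ : Finset (VB M e ⊕ VA a e n → Fin q)).filter
      (fun f => ∀ v w, (Gr M a e n).Adj v w → f v ≠ f w), F f =
    ((∑ f : VB M e ⊕ VA a e n → Fin q,
      (if ∀ b y, rel b y = true → f (Sum.inl b) ≠ f (Sum.inr y) then 1 else 0) * F' f : ℕ) : ℝ) := by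
  rw [Finset.sum_filter]
  push_cast
  refine Finset.sum_congr rfl fun f _ => ?_
  rw [hF f]
  by_cases h : ∀ b y, rel b y = true → f (Sum.inl b) ≠ f (Sum.inr y)
  · rw [if_pos h, if_pos ((proper_iff f).2 h), one_mul]
  · rw [if_neg h, if_neg fun h' => h ((proper_iff f).1 h'), zero_mul]

/-- the counterexample -/
theorem counterexample [DecidableRel (Gr 8 9 14 10).Adj] :
    (((univ : Finset (VB 8 14 ⊕ VA 9 14 10 → Fin 4)).filter
          (fun f => ∀ v w, (Gr 8 9 14 10).Adj v w → f v ≠ f w)).card : ℝ) *
      (∑ f ∈ (univ : Finset (VB 8 14 ⊕ VA 9 14 10 → Fin 4)).filter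
          (fun f => ∀ v w, (Gr 8 9 14 10).Adj v w → f v ≠ f w),
        evX 8 9 14 10 ((sideA 8 9 14 10).filter (fun v => f v = 0)) *
        evY 8 9 14 10 ((sideA 8 9 14 10).filter (fun v => f v = 0)))
    < (∑ f ∈ (univ : Finset (VB 8 14 ⊕ VA 9 14 10 → Fin 4)).filter
          (fun f => ∀ v w, (Gr 8 9 14 10).Adj v w → f v ≠ f w),
        evX 8 9 14 10 ((sideA 8 9 14 10).filter (fun v => f v = 0))) *
      (∑ f ∈ (univ : Finset (VB 8 14 ⊕ VA 9 14 10 → Fin 4)).filter
          (fun f => ∀ v w, (Gr 8 9 14 10).Adj v w → f v ≠ f w),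
        evY 8 9 14 10 ((sideA 8 9 14 10).filter (fun v => f v = 0))) := by
  have h0 : (((univ : Finset (VB 8 14 ⊕ VA 9 14 10 → Fin 4)).filter
          (fun f => ∀ v w, (Gr 8 9 14 10).Adj v w → f v ≠ f w)).card : ℝ) =
      (1966512008190282204 : ℕ) := by
    have := sum_filter_eq (q := 4) (M := 8) (a := 9) (e := 14) (n := 10) (fun _ => 1)
      (fun f => (∏ j : Fin 9, (fun _ : Fin 4 => 1) (f (Sum.inr (Sum.inl j)))) * 1) (fun f => by simp)
    rw [Finset.sum_const, nsmul_eq_mul, mul_one] at this
    rw [this, count_one (fun _ => 1), val_one]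
  have h1 := sum_filter_eq (q := 4) (M := 8) (a := 9) (e := 14) (n := 10)
      (fun f => evX 8 9 14 10 ((sideA 8 9 14 10).filter (fun v => f v = 0)))
      (fun f => (∏ j : Fin 9, (fun c : Fin 4 => if c = 0 then 1 else 0) (f (Sum.inr (Sum.inl j)))) * 1)
      (fun f => by rw [evX_eq, mul_one])
  rw [count_one (fun c : Fin 4 => if c = 0 then 1 else 0), val_x] at h1
  have h2 := sum_filter_eq (q := 4) (M := 8) (a := 9) (e := 14) (n := 10)
      (fun f => evY 8 9 14 10 ((sideA 8 9 14 10).filter (fun v => f v = 0)))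
      (fun f => (∏ j : Fin 9, (fun _ : Fin 4 => 1) (f (Sum.inr (Sum.inl j)))) *
        if ∀ l, f (Sum.inr (Sum.inr (Sum.inr l))) = 0 then 1 else 0)
      (fun f => by rw [evY_eq, Finset.prod_const_one, one_mul])
  rw [count_c (fun _ => 1) (0 : Fin 4), val_y] at h2
  have h3 := sum_filter_eq (q := 4) (M := 8) (a := 9) (e := 14) (n := 10)
      (fun f => evX 8 9 14 10 ((sideA 8 9 14 10).filter (fun v => f v = 0)) *
        evY 8 9 14 10 ((sideA 8 9 14 10).filter (fun v => f v = 0)))
      (fun f => (∏ j : Fin 9, (fun c : Fin 4 => if c = 0 then 1 else 0) (f (Sum.inr (Sum.inl j)))) *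
        if ∀ l, f (Sum.inr (Sum.inr (Sum.inr l))) = 0 then 1 else 0)
      (fun f => by rw [evX_eq, evY_eq, ← Nat.cast_mul])
  rw [count_c (fun c : Fin 4 => if c = 0 then 1 else 0) (0 : Fin 4), val_xy] at h3
  rw [h0, h1, h2, h3]
  norm_num

end Pool.Agent.H47.PosAssoc
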